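import Mathlib

/-!
# Depth three: bigraded families of submodules and double power series

`Ser B` is the ring of power series in two variables (outer `lam`, inner `mu`) over `B`;
`cf b e` is the coefficient of `lam ^ b * mu ^ e`.
-/

set_option autoImplicit false

namespace Pool.Agent.Helper87.D3

open Finset PowerSeries

/-- double power series -/
abbrev Ser (B : Type) [CommRing B] : Type := PowerSeries (PowerSeries B)

section Basic

variable {B : Type} [CommRing B]

/-- coefficient of `lam ^ b * mu ^ e` -/
noncomputable def cf (b e : ℕ) (F : Ser B) : B := coeff e (coeff b F)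

/-- the outer variable -/
noncomputable def lam (B : Type) [CommRing B] : Ser B := PowerSeries.X

/-- the inner variable -/
noncomputable def mu (B : Type) [CommRing B] : Ser B := PowerSeries.C PowerSeries.X

/-- constants -/
noncomputable def cst (x : B) : Ser B := PowerSeries.C (PowerSeries.C x)

theorem cst_add (x y : B) : cst (x + y) = cst x + cst y := by simp [cst]

theorem cst_mul (x y : B) : cst (x * y) = cst x * cst y := by simp [cst]

theorem cst_one : cst (1 : B) = 1 := by simp [cst]

theorem cst_zero : cst (0 : B) = 0 := by simp [cst]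

theorem cf_ext {F G : Ser B} (h : ∀ b e, cf b e F = cf b e G) : F = G := by
  ext b e
  exact h b e

theorem cf_add (b e : ℕ) (F G : Ser B) : cf b e (F + G) = cf b e F + cf b e G := by
  simp [cf]

theorem cf_sub (b e : ℕ) (F G : Ser B) : cf b e (F - G) = cf b e F - cf b e G := by
  simp [cf]

theorem cf_zero (b e : ℕ) : cf b e (0 : Ser B) = 0 := by simp [cf]

theorem cf_sum {ι : Type} (s : Finset ι) (b e : ℕ) (F : ι → Ser B) :
    cf b e (∑ i ∈ s, F i) = ∑ i ∈ s, cf b e (F i) := by
  simp [cf]

theorem cf_mul (b e : ℕ) (F G : Ser B) :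
    cf b e (F * G) = ∑ i ∈ antidiagonal b, ∑ j ∈ antidiagonal e,
      cf i.1 j.1 F * cf i.2 j.2 G := by
  simp only [cf, PowerSeries.coeff_mul, map_sum]

theorem cf_one (b e : ℕ) : cf b e (1 : Ser B) = if b = 0 ∧ e = 0 then 1 else 0 := by
  unfold cf
  rw [PowerSeries.coeff_one]
  by_cases hb : b = 0
  · simp [hb, PowerSeries.coeff_one]
  · simp [hb]

theorem cf_cst (b e : ℕ) (x : B) : cf b e (cst x) = if b = 0 ∧ e = 0 then x else 0 := by
  unfold cf cst
  rw [PowerSeries.coeff_C]
  by_cases hb : b = 0
  · simp [hb, PowerSeries.coeff_C]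
  · simp [hb]

theorem cf_cst_mul (b e : ℕ) (x : B) (F : Ser B) : cf b e (cst x * F) = x * cf b e F := by
  unfold cf cst
  rw [PowerSeries.coeff_C_mul, PowerSeries.coeff_C_mul]

theorem cf_zero_zero_mul (F G : Ser B) : cf 0 0 (F * G) = cf 0 0 F * cf 0 0 G := by
  rw [cf_mul]
  simp

/-- the coefficient of degree zero as a ring homomorphism -/
noncomputable def cf0 (B : Type) [CommRing B] : Ser B →+* B :=
  (PowerSeries.constantCoeff (R := B)).comp (PowerSeries.constantCoeff (R := PowerSeries B))

theorem cf0_apply (F : Ser B) : cf0 B F = cf 0 0 F := by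
  simp [cf0, cf]

theorem cf_lam_mul (b e : ℕ) (x : B) :
    cf b e (lam B * cst x) = if b = 1 ∧ e = 0 then x else 0 := by
  unfold cf lam cst
  rcases b with _ | b
  · simp
  · rw [PowerSeries.coeff_succ_X_mul, PowerSeries.coeff_C]
    by_cases hb : b = 0
    · simp [hb, PowerSeries.coeff_C]
    · simp [hb]

theorem cf_mu_mul (b e : ℕ) (x : B) :
    cf b e (mu B * cst x) = if b = 0 ∧ e = 1 then x else 0 := by
  unfold cf mu cst
  rw [PowerSeries.coeff_C_mul, PowerSeries.coeff_C]
  by_cases hb : b = 0
  · rcases e with _ | e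
    · simp [hb]
    · rw [if_pos hb, PowerSeries.coeff_succ_X_mul, PowerSeries.coeff_C]
      simp [hb]
  · simp [hb]

theorem cf_lam_pow_mul (b e r n : ℕ) (x : B) :
    cf b e (lam B ^ r * mu B ^ n * cst x) = if b = r ∧ e = n then x else 0 := by
  unfold cf lam mu cst
  rw [mul_assoc, PowerSeries.coeff_X_pow_mul', ← map_pow, ← map_mul]
  by_cases h : r ≤ b
  · rw [if_pos h, PowerSeries.coeff_C]
    by_cases h2 : b - r = 0
    · have hb : b = r := by omega
      rw [if_pos h2, PowerSeries.coeff_X_pow_mul']
      by_cases h3 : n ≤ e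
      · rw [if_pos h3, PowerSeries.coeff_C]
        by_cases h4 : e - n = 0
        · rw [if_pos h4, if_pos ⟨hb, by omega⟩]
        · rw [if_neg h4, if_neg (by omega)]
      · rw [if_neg h3, if_neg (by omega)]
    · rw [if_neg h2, if_neg (by omega), map_zero]
  · rw [if_neg h, if_neg (by omega), map_zero]

/-- the derivation `lam * d / d lam` -/
noncomputable def Dl (F : Ser B) : Ser B :=
  PowerSeries.mk fun b => (b : PowerSeries B) * coeff b F

theorem cf_Dl (b e : ℕ) (F : Ser B) : cf b e (Dl F) = b * cf b e F := by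
  unfold cf Dl
  rw [PowerSeries.coeff_mk, ← map_natCast (PowerSeries.C (R := B)) b, PowerSeries.coeff_C_mul]

theorem Dl_mul (F G : Ser B) : Dl (F * G) = Dl F * G + F * Dl G := by
  apply cf_ext
  intro b e
  rw [cf_Dl, cf_add, cf_mul, cf_mul, cf_mul, mul_sum, ← sum_add_distrib]
  refine sum_congr rfl fun i hi => ?_
  rw [mul_sum, ← sum_add_distrib]
  refine sum_congr rfl fun j _ => ?_
  rw [cf_Dl, cf_Dl, ← (mem_antidiagonal.1 hi)]
  push_cast
  ring

theorem Dl_one : Dl (1 : Ser B) = 0 := by
  apply cf_ext
  intro b e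
  rw [cf_Dl, cf_one, cf_zero]
  split_ifs with h
  · rw [h.1]; simp
  · simp

theorem Dl_prod {ι : Type} [DecidableEq ι] (s : Finset ι) (A S : ι → Ser B)
    (h : ∀ i ∈ s, Dl (A i) = A i * S i) : Dl (∏ i ∈ s, A i) = (∏ i ∈ s, A i) * ∑ i ∈ s, S i := by
  induction s using Finset.induction_on with
  | empty => simp [Dl_one]
  | insert a s ha ih =>
    rw [prod_insert ha, sum_insert ha, Dl_mul, h a (mem_insert_self _ _),
      ih fun i hi => h i (mem_insert_of_mem hi)]
    ring

end Basic

section Graded

variable {K B : Type} [Field K] [CommRing B] [Algebra K B]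

/-- a family of submodules which is compatible with multiplication -/
structure Big (M : ℕ → ℕ → Submodule K B) : Prop where
  one : (1 : B) ∈ M 0 0
  mul : ∀ {b e b' e' : ℕ} {x y : B}, x ∈ M b e → y ∈ M b' e' → x * y ∈ M (b + b') (e + e')

/-- series with coefficients in the family -/
def InB (M : ℕ → ℕ → Submodule K B) (F : Ser B) : Prop := ∀ b e, cf b e F ∈ M b e

variable {M : ℕ → ℕ → Submodule K B}

theorem InB.add {F G : Ser B} (hF : InB M F) (hG : InB M G) : InB M (F + G) := fun b e => by
  rw [cf_add]
  exact (M b e).add_mem (hF b e) (hG b e)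

theorem InB.zero : InB M (0 : Ser B) := fun b e => by
  rw [cf_zero]
  exact (M b e).zero_mem

theorem InB.mul (hM : Big M) {F G : Ser B} (hF : InB M F) (hG : InB M G) : InB M (F * G) :=
  fun b e => by
    rw [cf_mul]
    refine (M b e).sum_mem fun i hi => (M b e).sum_mem fun j hj => ?_
    have h := hM.mul (hF i.1 j.1) (hG i.2 j.2)
    rwa [mem_antidiagonal.1 hi, mem_antidiagonal.1 hj] at h

theorem InB.one (hM : Big M) : InB M (1 : Ser B) := fun b e => by
  rw [cf_one]
  split_ifs with h
  · rw [h.1, h.2]; exact hM.one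
  · exact (M b e).zero_mem

theorem InB.cst (hM : Big M) (c : K) : InB M (cst (algebraMap K B c)) := fun b e => by
  rw [cf_cst]
  split_ifs with h
  · rw [h.1, h.2, Algebra.algebraMap_eq_smul_one]
    exact (M 0 0).smul_mem _ hM.one
  · exact (M b e).zero_mem

theorem InB.pow (hM : Big M) {F : Ser B} (hF : InB M F) (n : ℕ) : InB M (F ^ n) := by
  induction n with
  | zero => rw [pow_zero]; exact InB.one hM
  | succ n ih => rw [pow_succ]; exact ih.mul hM hF

theorem InB.prod (hM : Big M) {ι : Type} (s : Finset ι) (F : ι → Ser B)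
    (hF : ∀ i ∈ s, InB M (F i)) : InB M (∏ i ∈ s, F i) := by
  classical
  induction s using Finset.induction_on with
  | empty => rw [prod_empty]; exact InB.one hM
  | insert a s ha ih =>
    rw [prod_insert ha]
    exact (hF a (mem_insert_self _ _)).mul hM (ih fun i hi => hF i (mem_insert_of_mem hi))

theorem InB.sum {ι : Type} (s : Finset ι) (F : ι → Ser B)
    (hF : ∀ i ∈ s, InB M (F i)) : InB M (∑ i ∈ s, F i) := fun b e => by
  rw [cf_sum]
  exact (M b e).sum_mem fun i hi => hF i hi b e

theorem InB.Dl {F : Ser B} (hF : InB M F) : InB M (Dl F) := fun b e => by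
  rw [cf_Dl]
  have : (b : B) * cf b e F = (b : K) • cf b e F := by
    rw [Algebra.smul_def, map_natCast]
  rw [this]
  exact (M b e).smul_mem _ (hF b e)

theorem InB.inv (hM : Big M) {F G : Ser B} (hF : InB M F) (hFG : F * G = 1) {c : K} (hc : c ≠ 0)
    (h0 : cf 0 0 F = algebraMap K B c) : InB M G := by
  have key : ∀ n b e, b + e = n → cf b e G ∈ M b e := by
    intro n
    induction n using Nat.strong_induction_on with
    | _ n ih =>
      intro b e hbe
      have h1 : cf b e (F * G) ∈ M b e := by
        rw [hFG]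
        exact InB.one hM b e
      rw [cf_mul, ← sum_product'] at h1
      have hmem : ((0, b), (0, e)) ∈ antidiagonal b ×ˢ antidiagonal e := by simp
      rw [← add_sum_erase _ _ hmem] at h1
      simp only at h1
      rw [h0, ← Algebra.smul_def] at h1
      have h2 : ∑ x ∈ (antidiagonal b ×ˢ antidiagonal e).erase ((0, b), (0, e)),
          cf x.1.1 x.2.1 F * cf x.1.2 x.2.2 G ∈ M b e := by
        refine (M b e).sum_mem fun x hx => ?_
        rw [mem_erase, mem_product, HasAntidiagonal.mem_antidiagonal,
            HasAntidiagonal.mem_antidiagonal] at hx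
        obtain ⟨hne, hx1, hx2⟩ := hx
        have h3 : cf x.1.2 x.2.2 G ∈ M x.1.2 x.2.2 := by
          refine ih (x.1.2 + x.2.2) ?_ _ _ rfl
          by_contra hlt
          apply hne
          have e1 : x.1.1 = 0 := by omega
          have e2 : x.2.1 = 0 := by omega
          have e3 : x.1.2 = b := by omega
          have e4 : x.2.2 = e := by omega
          ext <;> simp [e1, e2, e3, e4]
        have h4 := hM.mul (hF x.1.1 x.2.1) h3
        rwa [hx1, hx2] at h4
      have h5 : c • cf b e G ∈ M b e := by
        have := (M b e).sub_mem h1 h2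
        rwa [add_sub_cancel_right] at this
      have h6 := (M b e).smul_mem c⁻¹ h5
      rwa [smul_smul, inv_mul_cancel₀ hc, one_smul] at h6
  exact fun b e => key _ b e rfl

/-- a series with nonzero constant coefficient has an inverse -/
theorem exists_inv {F : Ser B} {c : K} (hc : c ≠ 0) (h0 : cf 0 0 F = algebraMap K B c) :
    ∃ G : Ser B, F * G = 1 := by
  have h1 : IsUnit F := by
    rw [PowerSeries.isUnit_iff_constantCoeff, PowerSeries.isUnit_iff_constantCoeff]
    have : constantCoeff (constantCoeff F) = algebraMap K B c := by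
      rw [← h0]
      simp [cf]
    rw [this]
    exact (IsUnit.mk0 c hc).map (algebraMap K B)
  obtain ⟨u, hu⟩ := h1
  exact ⟨↑u⁻¹, by rw [← hu, Units.mul_inv]⟩

/-- the logarithmic derivative -/
theorem exists_logDeriv (hM : Big M) {F : Ser B} (hF : InB M F) {c : K} (hc : c ≠ 0)
    (h0 : cf 0 0 F = algebraMap K B c) : ∃ S : Ser B, Dl F = F * S ∧ InB M S ∧
      ∀ e, cf 0 e S = 0 := by
  obtain ⟨G, hG⟩ := exists_inv hc h0
  refine ⟨D3.Dl F * G, ?_, hF.Dl.mul hM (hF.inv hM hG hc h0), fun e => ?_⟩
  · rw [mul_left_comm, hG, mul_one]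
  · rw [cf_mul]
    refine sum_eq_zero fun i hi => sum_eq_zero fun j _ => ?_
    have : i.1 = 0 := by
      have := mem_antidiagonal.1 hi
      omega
    rw [cf_Dl, this]
    simp

end Graded

end Pool.Agent.Helper87.D3
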