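import Mathlib

/-!
# Depth three: dependence on few edges, separable rank

A function on `W` (the dependent functions on the layers) has degree at most `x` in the edges of
the set `J` when it is a combination of functions each of which depends only on the layers which
are covered by at most `x` edges of `J`.
-/

set_option autoImplicit false

namespace Pool.Agent.Helper87.D3

open Finset

variable {L : ℕ} (wd : Fin L → ℕ)

/-- the words -/
abbrev Wd : Type := (k : Fin L) → Fin (wd k)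

variable {wd}

/-- layers covered by a set of edges; the edge `e` joins the layers `e - 1` and `e` -/
def cov (J : Finset ℕ) : Finset (Fin L) := univ.filter fun k => k.val ∈ J ∨ k.val + 1 ∈ J

theorem mem_cov {J : Finset ℕ} {k : Fin L} : k ∈ cov J ↔ k.val ∈ J ∨ k.val + 1 ∈ J := by
  simp [cov]

section Dep

variable (K : Type) [Field K]

/-- functions which depend only on the layers covered by at most `x` edges of `U` -/
def Gen (wd : Fin L → ℕ) (U : Finset ℕ) (x : ℕ) : Set (Wd wd → K) :=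
  {f | ∃ J : Finset ℕ, J ⊆ U ∧ J.card ≤ x ∧ ∀ p p' : Wd wd, (∀ k ∈ cov J, p k = p' k) → f p = f p'}

variable {K}

theorem Gen_one (U : Finset ℕ) : (1 : Wd wd → K) ∈ Gen K wd U 0 :=
  ⟨∅, empty_subset _, le_rfl, fun _ _ _ => rfl⟩

theorem Gen_mul {U : Finset ℕ} {x y : ℕ} {f g : Wd wd → K} (hf : f ∈ Gen K wd U x)
    (hg : g ∈ Gen K wd U y) : f * g ∈ Gen K wd U (x + y) := by
  obtain ⟨J, hJ, hc, hd⟩ := hf
  obtain ⟨J', hJ', hc', hd'⟩ := hg
  refine ⟨J ∪ J', union_subset hJ hJ', (card_union_le _ _).trans (by omega), fun p p' h => ?_⟩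
  rw [Pi.mul_apply, Pi.mul_apply, hd p p' fun k hk => h k ?_, hd' p p' fun k hk => h k ?_]
  · rw [mem_cov] at hk ⊢
    simp only [mem_union]
    tauto
  · rw [mem_cov] at hk ⊢
    simp only [mem_union]
    tauto

/-- functions on pairs of words -/
abbrev Fn (K : Type) (wd : Fin L → ℕ) : Type := Wd wd × Wd wd → K

/-- degree at most `x` in the edges `U` of the first word -/
def UU (K : Type) [Field K] (wd : Fin L → ℕ) (U : Finset ℕ) (x : ℕ) : Submodule K (Fn K wd) :=
  Submodule.span K {f | ∃ g ∈ Gen K wd U x, ∃ a : Wd wd → K, f = fun p => g p.1 * a p.2}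

/-- degree at most `x` in the edges `U` of the second word -/
def VV (K : Type) [Field K] (wd : Fin L → ℕ) (U : Finset ℕ) (x : ℕ) : Submodule K (Fn K wd) :=
  Submodule.span K {f | ∃ g ∈ Gen K wd U x, ∃ a : Wd wd → K, f = fun p => a p.1 * g p.2}

theorem one_mem_UU (U : Finset ℕ) : (1 : Fn K wd) ∈ UU K wd U 0 :=
  Submodule.subset_span ⟨1, Gen_one U, 1, by ext p; simp⟩

theorem one_mem_VV (U : Finset ℕ) : (1 : Fn K wd) ∈ VV K wd U 0 :=
  Submodule.subset_span ⟨1, Gen_one U, 1, by ext p; simp⟩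

theorem mul_mem_span {A : Type} [CommRing A] [Algebra K A] {S T R : Set A}
    (h : ∀ x ∈ S, ∀ y ∈ T, x * y ∈ R) {x y : A} (hx : x ∈ Submodule.span K S)
    (hy : y ∈ Submodule.span K T) : x * y ∈ Submodule.span K R := by
  have h1 : Submodule.span K S * Submodule.span K T ≤ Submodule.span K R := by
    rw [Submodule.span_mul_span]
    refine Submodule.span_mono ?_
    rintro _ ⟨a, ha, b, hb, rfl⟩
    exact h a ha b hb
  exact h1 (Submodule.mul_mem_mul hx hy)

theorem mul_mem_UU {U : Finset ℕ} {x y : ℕ} {f g : Fn K wd} (hf : f ∈ UU K wd U x)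
    (hg : g ∈ UU K wd U y) : f * g ∈ UU K wd U (x + y) := by
  refine mul_mem_span ?_ hf hg
  rintro _ ⟨g1, h1, a1, rfl⟩ _ ⟨g2, h2, a2, rfl⟩
  exact ⟨g1 * g2, Gen_mul h1 h2, a1 * a2, by ext p; simp only [Pi.mul_apply]; ring⟩

theorem mul_mem_VV {U : Finset ℕ} {x y : ℕ} {f g : Fn K wd} (hf : f ∈ VV K wd U x)
    (hg : g ∈ VV K wd U y) : f * g ∈ VV K wd U (x + y) := by
  refine mul_mem_span ?_ hf hg
  rintro _ ⟨g1, h1, a1, rfl⟩ _ ⟨g2, h2, a2, rfl⟩
  exact ⟨g1 * g2, Gen_mul h1 h2, a1 * a2, by ext p; simp only [Pi.mul_apply]; ring⟩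

end Dep

section Rank

variable {K : Type} [Field K] {X Y : Type}

/-- sums of at most `N` products `a (p) b (p')` -/
def RankLe (N : ℕ) (f : X × Y → K) : Prop :=
  ∃ (a : Fin N → X → K) (b : Fin N → Y → K), f = fun p => ∑ i, a i p.1 * b i p.2

theorem rankLe_of_index {ι : Type} [Fintype ι] {N : ℕ} (hN : Fintype.card ι ≤ N) {f : X × Y → K}
    (a : ι → X → K) (b : ι → Y → K) (h : f = fun p => ∑ i, a i p.1 * b i p.2) : RankLe N f := by
  classical
  let e := Fintype.equivFin ι
  refine ⟨fun i => if h : i.val < Fintype.card ι then a (e.symm ⟨i.val, h⟩) else 0,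
    fun i => if h : i.val < Fintype.card ι then b (e.symm ⟨i.val, h⟩) else 0, ?_⟩
  rw [h]
  ext p
  let g : ι → K := fun i => a i p.1 * b i p.2
  show ∑ i, g i = _
  rw [← Equiv.sum_comp e.symm g]
  have h1 : ∑ i : Fin (Fintype.card ι), g (e.symm i) =
      ∑ i : Fin N, if h : i.val < Fintype.card ι then g (e.symm ⟨i.val, h⟩) else 0 := by
    let F : ℕ → K := fun i => if h : i < Fintype.card ι then g (e.symm ⟨i, h⟩) else 0
    have h2 : ∑ i : Fin (Fintype.card ι), g (e.symm i) = ∑ i ∈ range (Fintype.card ι), F i := by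
      rw [← Fin.sum_univ_eq_sum_range]
      refine sum_congr rfl fun i _ => ?_
      simp only [F, i.isLt, dif_pos, Fin.eta]
    have h3 : ∑ i : Fin N, (if h : i.val < Fintype.card ι then g (e.symm ⟨i.val, h⟩) else 0) =
        ∑ i ∈ range N, F i := by
      rw [← Fin.sum_univ_eq_sum_range]
    rw [h2, h3]
    refine sum_subset (range_subset_range.2 hN) fun i _ hi => ?_
    rw [mem_range] at hi
    simp only [F]
    rw [dif_neg hi]
  rw [h1]
  refine sum_congr rfl fun i _ => ?_
  by_cases hi : i.val < Fintype.card ι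
  · simp only [hi, dif_pos, g]
  · simp only [hi, dif_neg, not_false_eq_true, Pi.zero_apply, zero_mul]

theorem RankLe.zero {N : ℕ} : RankLe N (0 : X × Y → K) :=
  ⟨fun _ => 0, fun _ => 0, by ext p; simp⟩

theorem RankLe.mono {N N' : ℕ} (h : N ≤ N') {f : X × Y → K} (hf : RankLe N f) : RankLe N' f := by
  obtain ⟨a, b, rfl⟩ := hf
  exact rankLe_of_index (by simpa using h) a b rfl

theorem RankLe.add {N N' : ℕ} {f g : X × Y → K} (hf : RankLe N f) (hg : RankLe N' g) :
    RankLe (N + N') (f + g) := by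
  obtain ⟨a, b, rfl⟩ := hf
  obtain ⟨c, d, rfl⟩ := hg
  refine rankLe_of_index (ι := Fin N ⊕ Fin N') (by simp) (Sum.elim a c) (Sum.elim b d) ?_
  ext p
  simp [Fintype.sum_sum_type]

theorem RankLe.mul {N N' : ℕ} {f g : X × Y → K} (hf : RankLe N f) (hg : RankLe N' g) :
    RankLe (N * N') (f * g) := by
  obtain ⟨a, b, rfl⟩ := hf
  obtain ⟨c, d, rfl⟩ := hg
  refine rankLe_of_index (ι := Fin N × Fin N') (by simp) (fun i => a i.1 * c i.2)
    (fun i => b i.1 * d i.2) ?_
  ext p
  rw [Pi.mul_apply, Fintype.sum_prod_type, sum_mul_sum]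
  refine sum_congr rfl fun i _ => sum_congr rfl fun j _ => ?_
  simp only [Pi.mul_apply]
  ring

theorem RankLe.smul {N : ℕ} {f : X × Y → K} (hf : RankLe N f) (c : K) : RankLe N (c • f) := by
  obtain ⟨a, b, rfl⟩ := hf
  refine ⟨fun i => c • a i, b, ?_⟩
  ext p
  simp only [Pi.smul_apply, smul_eq_mul, mul_sum]
  exact sum_congr rfl fun i _ => by ring

theorem RankLe.one : RankLe 1 (1 : X × Y → K) :=
  ⟨fun _ => 1, fun _ => 1, by ext p; simp⟩

/-- a regular matrix has full rank -/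
theorem card_le_of_rankLe [Fintype X] [DecidableEq X] {N : ℕ} {f : X × X → K}
    (hf : RankLe N f) (hdet : (Matrix.of fun p p' => f (p, p')).det ≠ 0) :
    Fintype.card X ≤ N := by
  obtain ⟨a, b, rfl⟩ := hf
  have h1 : (Matrix.of fun p p' : X => ∑ i, a i p * b i p') =
      (Matrix.of fun (p : X) (i : Fin N) => a i p) * (Matrix.of fun (i : Fin N) (p' : X) => b i p') := by
    ext p p'
    simp [Matrix.mul_apply]
  have h2 : (Matrix.of fun p p' : X => ∑ i, a i p * b i p').rank = Fintype.card X :=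
    Matrix.rank_of_isUnit _ ((Matrix.isUnit_iff_isUnit_det _).2 (IsUnit.mk0 _ hdet))
  rw [← h2, h1]
  refine (Matrix.rank_mul_le_left _ _).trans ((Matrix.rank_le_card_width _).trans ?_)
  rw [Fintype.card_fin]

end Rank

section Dim

variable {K : Type} [Field K]

/-- product of the widths of the covered layers -/
def wcov (wd : Fin L → ℕ) (J : Finset ℕ) : ℕ := ∏ k ∈ cov J, wd k

/-- number of functions needed -/
def Dm (wd : Fin L → ℕ) (U : Finset ℕ) (x : ℕ) : ℕ := ∑ J ∈ U.powerset.filter (fun J => J.card ≤ x), wcov wd J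

/-- index type of the indicator functions -/
abbrev Ix (wd : Fin L → ℕ) (U : Finset ℕ) (x : ℕ) : Type :=
  (J : {J // J ∈ U.powerset.filter (fun J => J.card ≤ x)}) × ((k : {k : Fin L // k ∈ cov J.1}) → Fin (wd k.1))

theorem card_Ix (U : Finset ℕ) (x : ℕ) : Fintype.card (Ix wd U x) = Dm wd U x := by
  classical
  rw [Fintype.card_sigma]
  simp only [Fintype.card_pi, Fintype.card_fin]
  unfold Dm
  rw [← Finset.sum_coe_sort (U.powerset.filter (fun J => J.card ≤ x)) (fun J => wcov wd J)]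
  refine Fintype.sum_congr _ _ fun J => ?_
  unfold wcov
  rw [← Finset.prod_coe_sort (cov J.1) wd]

open Classical in
/-- indicator functions -/
noncomputable def ind (K : Type) [Field K] {wd : Fin L → ℕ} {U : Finset ℕ} {x : ℕ} (i : Ix wd U x) : Wd wd → K :=
  fun p => if ∀ k : {k : Fin L // k ∈ cov i.1.1}, p k.1 = i.2 k then 1 else 0

theorem exists_comb {U : Finset ℕ} {x : ℕ} {g : Wd wd → K} (hg : g ∈ Gen K wd U x) :
    ∃ c : Ix wd U x → K, g = fun p => ∑ i, c i * ind K i p := by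
  classical
  obtain ⟨J, hJ, hc, hd⟩ := hg
  have hmem : J ∈ U.powerset.filter (fun J => J.card ≤ x) := by
    rw [mem_filter, mem_powerset]
    exact ⟨hJ, hc⟩
  refine ⟨fun i => if h : i.1.1 = J then
    (if h2 : ∃ p : Wd wd, ∀ k : {k : Fin L // k ∈ cov i.1.1}, p k.1 = i.2 k then g h2.choose else 0) else 0, ?_⟩
  ext p
  let i0 : Ix wd U x := ⟨⟨J, hmem⟩, fun k => p k.1⟩
  have hex : ∃ p' : Wd wd, ∀ k : {k : Fin L // k ∈ cov i0.1.1}, p' k.1 = i0.2 k := ⟨p, fun k => rfl⟩
  rw [sum_eq_single i0]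
  · have h1 : ind K i0 p = 1 := if_pos fun k => rfl
    beta_reduce
    rw [h1, mul_one, dif_pos rfl, dif_pos hex]
    refine hd _ _ fun k hk => ?_
    exact (hex.choose_spec ⟨k, hk⟩).symm
  · rintro ⟨⟨J', hJ'⟩, y⟩ _ hne
    beta_reduce
    by_cases h : J' = J
    · subst h
      rw [dif_pos rfl]
      have : ind K (⟨⟨J', hJ'⟩, y⟩ : Ix wd U x) p = 0 := by
        refine if_neg fun h2 => hne ?_
        have : y = fun k : {k : Fin L // k ∈ cov J'} => p k.1 := by
          ext k
          exact congrArg _ (h2 k).symm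
        rw [this]
      rw [this, mul_zero]
    · rw [dif_neg h, zero_mul]
  · intro h
    exact absurd (mem_univ _) h

theorem rank_UU {U : Finset ℕ} {x : ℕ} {f : Fn K wd} (hf : f ∈ UU K wd U x) :
    RankLe (Dm wd U x) f := by
  classical
  suffices h : ∃ b : Ix wd U x → Wd wd → K, f = fun p => ∑ i, ind K i p.1 * b i p.2 by
    obtain ⟨b, hb⟩ := h
    exact rankLe_of_index (card_Ix U x).le (fun i => ind K i) b hb
  refine Submodule.span_induction ?_ ?_ ?_ ?_ hf
  · rintro _ ⟨g, hg, a, rfl⟩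
    obtain ⟨c, hc⟩ := exists_comb hg
    refine ⟨fun i => c i • a, ?_⟩
    ext p
    simp only [hc, sum_mul, Pi.smul_apply, smul_eq_mul]
    exact sum_congr rfl fun i _ => by ring
  · exact ⟨fun _ => 0, by ext p; simp⟩
  · rintro f g _ _ ⟨b, rfl⟩ ⟨b', rfl⟩
    refine ⟨fun i => b i + b' i, ?_⟩
    ext p
    simp only [Pi.add_apply, mul_add, sum_add_distrib]
  · rintro c f _ ⟨b, rfl⟩
    refine ⟨fun i => c • b i, ?_⟩
    ext p
    simp only [Pi.smul_apply, smul_eq_mul, mul_sum]
    exact sum_congr rfl fun i _ => by ring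

theorem rank_VV {U : Finset ℕ} {x : ℕ} {f : Fn K wd} (hf : f ∈ VV K wd U x) :
    RankLe (Dm wd U x) f := by
  classical
  suffices h : ∃ b : Ix wd U x → Wd wd → K, f = fun p => ∑ i, b i p.1 * ind K i p.2 by
    obtain ⟨b, hb⟩ := h
    exact rankLe_of_index (card_Ix U x).le b (fun i => ind K i) hb
  refine Submodule.span_induction ?_ ?_ ?_ ?_ hf
  · rintro _ ⟨g, hg, a, rfl⟩
    obtain ⟨c, hc⟩ := exists_comb hg
    refine ⟨fun i => c i • a, ?_⟩
    ext p
    simp only [hc, mul_sum, Pi.smul_apply, smul_eq_mul]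
    exact sum_congr rfl fun i _ => by ring
  · exact ⟨fun _ => 0, by ext p; simp⟩
  · rintro f g _ _ ⟨b, rfl⟩ ⟨b', rfl⟩
    refine ⟨fun i => b i + b' i, ?_⟩
    ext p
    simp only [Pi.add_apply, add_mul, sum_add_distrib]
  · rintro c f _ ⟨b, rfl⟩
    refine ⟨fun i => c • b i, ?_⟩
    ext p
    simp only [Pi.smul_apply, smul_eq_mul, mul_sum]
    exact sum_congr rfl fun i _ => by ring

theorem cov_insert (J : Finset ℕ) (e : ℕ) : (cov (insert e J) : Finset (Fin L)) = cov J ∪ cov {e} := by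
  ext k
  simp only [mem_cov, mem_insert, mem_union, mem_singleton]
  tauto

theorem wcov_le (hwd : ∀ k, 1 ≤ wd k) {H : ℕ} {U : Finset ℕ} (hU : ∀ e ∈ U, wcov wd {e} ≤ H)
    {J : Finset ℕ} (hJ : J ⊆ U) : wcov wd J ≤ H ^ J.card := by
  classical
  induction J using Finset.induction_on with
  | empty => simp [wcov, cov]
  | insert e J he ih =>
    rw [card_insert_of_notMem he, pow_succ]
    have h1 : wcov wd (insert e J) ≤ wcov wd J * wcov wd {e} := by
      unfold wcov
      rw [cov_insert, ← prod_union_inter]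
      exact Nat.le_mul_of_pos_right _ (prod_pos fun k _ => hwd k)
    exact h1.trans (Nat.mul_le_mul (ih fun i hi => hJ (mem_insert_of_mem hi))
      (hU e (hJ (mem_insert_self _ _))))

theorem Dm_le (hwd : ∀ k, 1 ≤ wd k) {H : ℕ} (hH : 1 ≤ H) {U : Finset ℕ}
    (hU : ∀ e ∈ U, wcov wd {e} ≤ H) (x : ℕ) : Dm wd U x ≤ 2 ^ U.card * H ^ x := by
  unfold Dm
  have h1 : ∀ J ∈ U.powerset.filter (fun J => J.card ≤ x), wcov wd J ≤ H ^ x := by
    intro J hJ
    rw [mem_filter, mem_powerset] at hJ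
    exact (wcov_le hwd hU hJ.1).trans (Nat.pow_le_pow_right hH hJ.2)
  refine (sum_le_card_nsmul _ _ _ h1).trans ?_
  rw [smul_eq_mul]
  refine Nat.mul_le_mul_right _ ((card_filter_le _ _).trans ?_)
  rw [card_powerset]

end Dim

end Pool.Agent.Helper87.D3
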