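import Pool.Agent.Helper87.D3.Series
import Pool.Agent.Helper87.D3.Rank
import Pool.Agent.Helper97.Form.Perm
import Pool.Agent.Helper24.SQ.Pad

/-!
# Depth three: the path matrix

Layers `0, ..., L - 1` of widths `wd k`, edges `0, ..., L` (the edge `e` joins the layers `e - 1`
and `e`), an extra vertex `none` which is the beginning and the end of all paths.
-/

set_option autoImplicit false

namespace Pool.Agent.Helper87.D3

open Finset Helper97.Form

variable {L : ℕ} {wd : Fin L → ℕ}

section Gadget

variable (A : Type) [CommRing A] (ty : ℕ → Bool)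

/-- the variable of an edge -/
noncomputable def sc (wd : Fin L → ℕ) (e : ℕ) : Ser (Fn A wd) := if ty e then lam _ else mu _

/-- the word at the layer `k` is `a`; first word for `true`, second word for `false` -/
def il (t : Bool) (k : Fin L) (a : Fin (wd k)) : Fn A wd :=
  fun p => if (if t then p.1 k else p.2 k) = a then 1 else 0

/-- both words agree at the layer `l` -/
def eqf (wd : Fin L → ℕ) (l : Fin L) : Fn A wd := fun p => if p.1 l = p.2 l then 1 else 0

/-- both words agree -/
def dl (wd : Fin L → ℕ) : Fn A wd := fun p => if p.1 = p.2 then 1 else 0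

/-- inner vertices -/
abbrev Tau (wd : Fin L → ℕ) : Type := (k : Fin L) × Fin (wd k)

/-- first edge -/
noncomputable def gu (i : Tau wd) : Ser (Fn A wd) :=
  if i.1.val = 0 then sc A ty wd 0 * cst (il A (ty 0) i.1 i.2) else 0

/-- last edge -/
noncomputable def gv (i : Tau wd) : Ser (Fn A wd) :=
  if i.1.val + 1 = L then sc A ty wd L * cst (il A (ty L) i.1 i.2) else 0

/-- inner edges -/
noncomputable def gN (i j : Tau wd) : Ser (Fn A wd) :=
  if j.1.val = i.1.val + 1 then
    sc A ty wd j.1.val * cst (il A (ty j.1.val) i.1 i.2 * il A (ty j.1.val) j.1 j.2) else 0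

/-- total weight of the paths from a vertex to the end -/
noncomputable def gx (i : Tau wd) : Ser (Fn A wd) :=
  (∏ e ∈ Ioc i.1.val L, sc A ty wd e) *
    cst (il A (ty (i.1.val + 1)) i.1 i.2 * ∏ l ∈ univ.filter (fun l => i.1 < l), eqf A wd l)

variable {A ty}

theorem il_sum (hw : ∀ k : Fin L, ty k.val = ty (k.val + 1) → wd k = 1) (k : Fin L) :
    ∑ b, il A (ty k.val) k b * il A (ty (k.val + 1)) k b = eqf A wd k := by
  ext p
  rw [Finset.sum_apply]
  simp only [Pi.mul_apply, il, eqf]
  by_cases h : ty k.val = ty (k.val + 1)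
  · have h1 : p.1 k = p.2 k := by
      have h2 := (p.1 k).isLt
      have h3 := (p.2 k).isLt
      have h4 := hw k h
      ext
      omega
    rw [if_pos h1, h, h1]
    simp
  · rcases h1 : ty k.val with _ | _
    · have h2 : ty (k.val + 1) = true := by
        rcases h3 : ty (k.val + 1) with _ | _
        · exact absurd (h1.trans h3.symm) h
        · rfl
      rw [h2]
      simp only [Bool.false_eq_true, if_false, if_true]
      rw [Fintype.sum_eq_single (p.2 k)]
      · simp
      · intro b hb
        rw [if_neg (Ne.symm hb), zero_mul]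
    · have h2 : ty (k.val + 1) = false := by
        rcases h3 : ty (k.val + 1) with _ | _
        · rfl
        · exact absurd (h1.trans h3.symm) h
      rw [h2]
      simp only [Bool.false_eq_true, if_false, if_true]
      rw [Fintype.sum_eq_single (p.1 k)]
      · simp [eq_comm]
      · intro b hb
        rw [if_neg (Ne.symm hb), zero_mul]

theorem gx_rec (hw : ∀ k : Fin L, ty k.val = ty (k.val + 1) → wd k = 1) (i : Tau wd) :
    gx A ty i = gv A ty i + ∑ j, gN A ty i j * gx A ty j := by
  obtain ⟨k, a⟩ := i
  by_cases hk : k.val + 1 = L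
  · have h1 : ∑ j, gN A ty ⟨k, a⟩ j * gx A ty j = 0 := by
      refine sum_eq_zero fun j _ => ?_
      have : ¬ (j.1.val = k.val + 1) := by have := j.1.isLt; omega
      simp only [gN]
      rw [if_neg this, zero_mul]
    rw [h1, add_zero]
    simp only [gx, gv]
    rw [if_pos hk]
    have h2 : Ioc k.val L = {L} := by
      ext x
      simp only [mem_Ioc, mem_singleton]
      omega
    have h3 : univ.filter (fun l : Fin L => k < l) = ∅ := by
      ext x
      simp only [mem_filter, mem_univ, true_and, notMem_empty, iff_false, Fin.lt_def]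
      have := x.isLt
      omega
    rw [h2, h3, prod_singleton, prod_empty, mul_one, hk]
  · have hk' : k.val + 1 < L := by have := k.isLt; omega
    set k' : Fin L := ⟨k.val + 1, hk'⟩ with hkd
    have h0 : gv A ty ⟨k, a⟩ = 0 := by
      simp only [gv]
      rw [if_neg hk]
    rw [h0, zero_add, Fintype.sum_sigma, Fintype.sum_eq_single k']
    · have h1 : ∀ b : Fin (wd k'), gN A ty ⟨k, a⟩ ⟨k', b⟩ * gx A ty ⟨k', b⟩ =
          (∏ e ∈ Ioc k.val L, sc A ty wd e) * (cst (il A (ty (k.val + 1)) k a *
            ∏ l ∈ univ.filter (fun l => k' < l), eqf A wd l) *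
              cst (il A (ty k'.val) k' b * il A (ty (k'.val + 1)) k' b)) := by
        intro b
        simp only [gN, gx]
        rw [if_pos rfl]
        have h2 : Ioc k.val L = insert (k.val + 1) (Ioc k'.val L) := by
          ext x
          simp only [mem_Ioc, mem_insert, hkd]
          omega
        rw [h2, prod_insert (by simp [hkd])]
        simp only [cst_mul]
        show sc A ty wd (k.val + 1) * (cst (il A (ty (k.val + 1)) k a) *
          cst (il A (ty (k.val + 1)) k' b)) * _ = _
        ring
      rw [sum_congr rfl fun b _ => h1 b, ← mul_sum, ← mul_sum]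
      have h3 : ∑ b : Fin (wd k'), cst (il A (ty k'.val) k' b * il A (ty (k'.val + 1)) k' b) =
          cst (eqf A wd k') := by
        rw [← il_sum hw k']
        simp only [cst, map_sum]
      rw [h3, ← cst_mul]
      simp only [gx]
      congr 2
      have h4 : univ.filter (fun l : Fin L => k < l) =
          insert k' (univ.filter (fun l : Fin L => k' < l)) := by
        ext x
        simp only [mem_filter, mem_univ, true_and, mem_insert, Fin.lt_def, Fin.ext_iff, hkd]
        omega
      rw [h4, prod_insert (by simp)]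
      ring
    · intro k'' hne
      refine sum_eq_zero fun b _ => ?_
      have : ¬ (k''.val = k.val + 1) := fun h => hne (Fin.ext h)
      simp only [gN]
      rw [if_neg this, zero_mul]

theorem prod_eqf : ∏ l, eqf A wd l = dl A wd := by
  ext p
  rw [Finset.prod_apply]
  simp only [eqf, dl]
  by_cases h : p.1 = p.2
  · rw [if_pos h]
    exact prod_eq_one fun l _ => by rw [if_pos (by rw [h])]
  · rw [if_neg h]
    obtain ⟨l, hl⟩ : ∃ l, p.1 l ≠ p.2 l := by
      by_contra h1
      push Not at h1
      exact h (funext h1)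
    exact prod_eq_zero (mem_univ l) (if_neg hl)

/-- the permanent of the path matrix -/
theorem perm_path (hL : 0 < L) (hw : ∀ k : Fin L, ty k.val = ty (k.val + 1) → wd k = 1) :
    (acy (0 : Ser (Fn A wd)) (gu A ty) (gv A ty) (gN A ty)).permanent =
      (∏ e ∈ range (L + 1), sc A ty wd e) * cst (dl A wd) := by
  rw [perm_acy (fun i : Tau wd => L - i.1.val) 0 (gu A ty) (gv A ty) (gx A ty) (gN A ty) ?_
    (gx_rec hw)]
  · rw [zero_add, Fintype.sum_sigma, Fintype.sum_eq_single (⟨0, hL⟩ : Fin L)]
    · have h1 : ∀ b : Fin (wd ⟨0, hL⟩), gu A ty ⟨⟨0, hL⟩, b⟩ * gx A ty ⟨⟨0, hL⟩, b⟩ =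
          (∏ e ∈ range (L + 1), sc A ty wd e) *
            (cst (∏ l ∈ univ.filter (fun l : Fin L => (⟨0, hL⟩ : Fin L) < l), eqf A wd l) *
              cst (il A (ty 0) ⟨0, hL⟩ b * il A (ty (0 + 1)) ⟨0, hL⟩ b)) := by
        intro b
        simp only [gu, gx]
        rw [if_pos trivial]
        have h2 : range (L + 1) = insert 0 (Ioc 0 L) := by
          ext x
          simp only [mem_Ioc, mem_insert, mem_range]
          omega
        rw [h2, prod_insert (by simp)]
        simp only [cst_mul]
        ring
      rw [sum_congr rfl fun b _ => h1 b, ← mul_sum, ← mul_sum]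
      have h3 : ∑ b : Fin (wd ⟨0, hL⟩), cst (il A (ty 0) ⟨0, hL⟩ b *
          il A (ty (0 + 1)) ⟨0, hL⟩ b) = cst (eqf A wd ⟨0, hL⟩) := by
        rw [← il_sum hw ⟨0, hL⟩]
        simp only [cst, map_sum]
      rw [h3, ← cst_mul, ← prod_eqf]
      congr 2
      have h4 : (univ : Finset (Fin L)) =
          insert ⟨0, hL⟩ (univ.filter (fun l : Fin L => (⟨0, hL⟩ : Fin L) < l)) := by
        ext x
        simp only [mem_filter, mem_univ, true_and, mem_insert, Fin.lt_def, Fin.ext_iff, true_iff]
        omega
      conv_rhs => rw [h4, prod_insert (by simp)]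
      ring
    · intro k hne
      refine sum_eq_zero fun b _ => ?_
      have : ¬ (k.val = 0) := fun h => hne (Fin.ext h)
      simp only [gu]
      rw [if_neg this, zero_mul]
  · intro i j h
    have h1 : j.1.val = i.1.val + 1 := by
      by_contra h2
      apply h
      simp only [gN]
      rw [if_neg h2]
    have := j.1.isLt
    show L - j.1.val < L - i.1.val
    omega

theorem prod_sc (s : Finset ℕ) : ∏ e ∈ s, sc A ty wd e =
    lam _ ^ (s.filter fun e => ty e = true).card * mu _ ^ (s.filter fun e => ¬ ty e = true).card := by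
  classical
  rw [← prod_filter_mul_prod_filter_not s fun e => ty e = true]
  congr 1
  · rw [← prod_const]
    refine prod_congr rfl fun e he => ?_
    simp only [sc]
    rw [if_pos (mem_filter.1 he).2]
  · rw [← prod_const]
    refine prod_congr rfl fun e he => ?_
    simp only [sc]
    rw [if_neg (mem_filter.1 he).2]

end Gadget

section Pad

/-- a matrix with an identity block added -/
def padM {B τ : Type} [CommRing B] {n k : ℕ} (e : Fin n ≃ τ ⊕ Fin k) (M : Matrix τ τ B) :
    Matrix (Fin n) (Fin n) B :=
  (Matrix.fromBlocks M 0 0 (1 : Matrix (Fin k) (Fin k) B)).submatrix e e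

theorem padM_permanent {B τ : Type} [CommRing B] [Fintype τ] [DecidableEq τ] {n k : ℕ}
    (e : Fin n ≃ τ ⊕ Fin k) (M : Matrix τ τ B) : (padM e M).permanent = M.permanent := by
  nontriviality B
  unfold padM
  rw [Helper24.SQ.permanent_submatrix_equiv', Helper24.SQ.permanent_fromBlocks_one']

theorem exists_padE {τ : Type} [Fintype τ] {n : ℕ} (hn : Fintype.card τ ≤ n) :
    ∃ k : ℕ, Nonempty (Fin n ≃ τ ⊕ Fin k) := by
  refine ⟨n - Fintype.card τ, ⟨Fintype.equivOfCardEq ?_⟩⟩
  rw [Fintype.card_sum, Fintype.card_fin, Fintype.card_fin]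
  omega

theorem padM_mem {B τ : Type} [CommRing B] {n k : ℕ} (e : Fin n ≃ τ ⊕ Fin k) (M : Matrix τ τ B)
    {S : Set B} (h0 : (0 : B) ∈ S) (h1 : (1 : B) ∈ S) (hM : ∀ i j, M i j ∈ S) (i j : Fin n) :
    padM e M i j ∈ S := by
  unfold padM
  rw [Matrix.submatrix_apply]
  rcases e i with a | a <;> rcases e j with b | b
  · exact hM a b
  · exact h0
  · exact h0
  · rw [Matrix.fromBlocks_apply₂₂, Matrix.one_apply]
    split_ifs
    · exact h1
    · exact h0

theorem padM_map {B B' τ : Type} [CommRing B] [CommRing B'] {n k : ℕ} (e : Fin n ≃ τ ⊕ Fin k)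
    (M : Matrix τ τ B) (f : B →+* B') (i j : Fin n) :
    f (padM e M i j) = padM e (M.map f) i j := by
  unfold padM
  rw [Matrix.submatrix_apply, Matrix.submatrix_apply]
  rcases e i with a | a <;> rcases e j with b | b
  · rfl
  · simp
  · simp
  · rw [Matrix.fromBlocks_apply₂₂, Matrix.fromBlocks_apply₂₂, Matrix.one_apply, Matrix.one_apply]
    split_ifs <;> simp

end Pad

end Pool.Agent.Helper87.D3
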