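import Pool.Agent.Helper87.D3.Gate
import Pool.Agent.Helper87.D3.Gadget

/-!
# Depth three: affine forms and polynomials in few affine forms
-/

set_option autoImplicit false

namespace Pool.Agent.Helper87.D3

open Finset MvPolynomial

variable {L : ℕ} {wd : Fin L → ℕ} {K : Type} [Field K]

theorem algebraMap_Ser (c : K) :
    algebraMap K (Ser (Fn K wd)) c = cst (algebraMap K (Fn K wd) c) := by
  rw [PowerSeries.algebraMap_apply, PowerSeries.algebraMap_apply]
  rfl

section Fam

/-- functions of the first word -/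
def fst' (α : Wd wd → K) : Fn K wd := fun p => α p.1

/-- functions of the second word -/
def snd' (β : Wd wd → K) : Fn K wd := fun p => β p.2

theorem fst_mul_mem_UU {U : Finset ℕ} {b : ℕ} {α : Wd wd → K}
    (hα : α ∈ Submodule.span K (Gen K wd U b)) (g : Wd wd → K) :
    fst' α * snd' g ∈ UU K wd U b := by
  refine Submodule.span_induction (p := fun α _ => fst' α * snd' g ∈ UU K wd U b) ?_ ?_ ?_ ?_ hα
  · intro α hα
    exact Submodule.subset_span ⟨α, hα, g, rfl⟩
  · have : fst' (0 : Wd wd → K) * snd' g = 0 := by ext p; simp [fst', snd']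
    rw [this]
    exact Submodule.zero_mem _
  · intro a b _ _ ha hb
    have : fst' (a + b) * snd' g = fst' a * snd' g + fst' b * snd' g := by
      ext p; simp [fst', snd', add_mul]
    rw [this]
    exact Submodule.add_mem _ ha hb
  · intro c a _ ha
    have : fst' (c • a) * snd' g = c • (fst' a * snd' g) := by
      ext p; simp [fst', snd', mul_assoc]
    rw [this]
    exact Submodule.smul_mem _ _ ha

theorem snd_mul_mem_VV {V : Finset ℕ} {e : ℕ} {β : Wd wd → K}
    (hβ : β ∈ Submodule.span K (Gen K wd V e)) (g : Wd wd → K) :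
    fst' g * snd' β ∈ VV K wd V e := by
  refine Submodule.span_induction (p := fun β _ => fst' g * snd' β ∈ VV K wd V e) ?_ ?_ ?_ ?_ hβ
  · intro β hβ
    exact Submodule.subset_span ⟨β, hβ, g, rfl⟩
  · have : fst' g * snd' (0 : Wd wd → K) = 0 := by ext p; simp [fst', snd']
    rw [this]
    exact Submodule.zero_mem _
  · intro a b _ _ ha hb
    have : fst' g * snd' (a + b) = fst' g * snd' a + fst' g * snd' b := by
      ext p; simp [fst', snd', mul_add]
    rw [this]
    exact Submodule.add_mem _ ha hb
  · intro c a _ ha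
    have : fst' g * snd' (c • a) = c • (fst' g * snd' a) := by
      ext p; simp [fst', snd', mul_left_comm]
    rw [this]
    exact Submodule.smul_mem _ _ ha

theorem prod_mem_span {U : Finset ℕ} {b : ℕ} (α : Fin b → Wd wd → K)
    (hα : ∀ i, α i ∈ Submodule.span K (Gen K wd U 1)) :
    ∏ i, α i ∈ Submodule.span K (Gen K wd U b) := by
  induction b with
  | zero => rw [univ_eq_empty, prod_empty]; exact Submodule.subset_span (Gen_one U)
  | succ b ih =>
    rw [Fin.prod_univ_castSucc]
    exact mul_mem_span (fun x hx y hy => Gen_mul hx hy) (ih _ fun i => hα _) (hα _)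

variable {w : ℕ} (α : Fin w → Wd wd → K)

/-- products of `b` of the given functions of the first word, times functions of the second -/
def Ta (b : ℕ) : Submodule K (Fn K wd) :=
  Submodule.span K {F | ∃ (f : Fin b → Fin w) (g : Wd wd → K), F = fst' (∏ i, α (f i)) * snd' g}

theorem Ta_mul {b b' : ℕ} {F G : Fn K wd} (hF : F ∈ Ta α b) (hG : G ∈ Ta α b') :
    F * G ∈ Ta α (b + b') := by
  refine mul_mem_span ?_ hF hG
  rintro _ ⟨f, g, rfl⟩ _ ⟨f', g', rfl⟩
  refine ⟨Fin.append f f', g * g', ?_⟩
  rw [Fin.prod_univ_add]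
  simp only [Fin.append_left, Fin.append_right]
  ext p
  simp only [fst', snd', Pi.mul_apply]
  ring

theorem Ta_rank {b : ℕ} {F : Fn K wd} (hF : F ∈ Ta α b) : RankLe (w ^ b) F := by
  suffices h : ∃ g : (Fin b → Fin w) → Wd wd → K,
      F = fun p => ∑ f, (∏ i, α (f i)) p.1 * g f p.2 by
    obtain ⟨g, hg⟩ := h
    exact rankLe_of_index (by simp) (fun f => ∏ i, α (f i)) g hg
  refine Submodule.span_induction ?_ ?_ ?_ ?_ hF
  · rintro _ ⟨f, g, rfl⟩
    refine ⟨fun f' => if f' = f then g else 0, ?_⟩
    ext p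
    rw [Fintype.sum_eq_single f]
    · simp [fst', snd']
    · intro f' hf'
      beta_reduce
      rw [if_neg hf', Pi.zero_apply, mul_zero]
  · exact ⟨fun _ => 0, by ext p; simp⟩
  · rintro F G _ _ ⟨g, rfl⟩ ⟨g', rfl⟩
    refine ⟨fun f => g f + g' f, ?_⟩
    ext p
    simp only [Pi.add_apply, mul_add, sum_add_distrib]
  · rintro c F _ ⟨g, rfl⟩
    refine ⟨fun f => c • g f, ?_⟩
    ext p
    simp only [Pi.smul_apply, smul_eq_mul, mul_sum]
    exact sum_congr rfl fun i _ => by ring

theorem fam_Ta {U V : Finset ℕ} (hα : ∀ k, α k ∈ Submodule.span K (Gen K wd U 1)) :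
    Fam U V w (fun b e => Ta α b ⊓ VV K wd V e) := by
  refine ⟨⟨⟨?_, one_mem_VV V⟩, ?_⟩, fun b e => inf_le_right, ?_, fun b e f hf => Ta_rank α hf.1⟩
  · refine Submodule.subset_span ⟨Fin.elim0, 1, ?_⟩
    ext p
    simp [fst', snd']
  · intro b e b' e' x y hx hy
    exact ⟨Ta_mul α hx.1 hy.1, mul_mem_VV hx.2 hy.2⟩
  · intro b e F hF
    refine Submodule.span_le.2 ?_ hF.1
    rintro _ ⟨f, g, rfl⟩
    exact fst_mul_mem_UU (prod_mem_span _ fun i => hα _) g

end Fam

section Aff

variable (U V : Finset ℕ)

/-- images of affine forms -/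
def Aff (F : Ser (Fn K wd)) : Prop :=
  ∃ (c : K) (α β : Wd wd → K), α ∈ Submodule.span K (Gen K wd U 1) ∧
    β ∈ Submodule.span K (Gen K wd V 1) ∧
    F = cst (algebraMap K _ c) + lam _ * cst (fst' α) + mu _ * cst (snd' β)

variable {U V}

theorem Aff.const (c : K) : Aff U V (algebraMap K (Ser (Fn K wd)) c) := by
  refine ⟨c, 0, 0, Submodule.zero_mem _, Submodule.zero_mem _, ?_⟩
  have h1 : fst' (0 : Wd wd → K) = 0 := rfl
  have h2 : snd' (0 : Wd wd → K) = 0 := rfl
  rw [h1, h2, cst_zero, mul_zero, mul_zero, add_zero, add_zero, algebraMap_Ser]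

theorem Aff.add {F G : Ser (Fn K wd)} (hF : Aff U V F) (hG : Aff U V G) : Aff U V (F + G) := by
  obtain ⟨c, α, β, hα, hβ, rfl⟩ := hF
  obtain ⟨c', α', β', hα', hβ', rfl⟩ := hG
  refine ⟨c + c', α + α', β + β', Submodule.add_mem _ hα hα', Submodule.add_mem _ hβ hβ', ?_⟩
  have h1 : fst' (α + α') = fst' α + fst' α' := rfl
  have h2 : snd' (β + β') = snd' β + snd' β' := rfl
  rw [h1, h2, map_add, cst_add, cst_add, cst_add]
  ring

theorem Aff.smul {F : Ser (Fn K wd)} (hF : Aff U V F) (a : K) : Aff U V (a • F) := by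
  obtain ⟨c, α, β, hα, hβ, rfl⟩ := hF
  refine ⟨a * c, a • α, a • β, Submodule.smul_mem _ _ hα, Submodule.smul_mem _ _ hβ, ?_⟩
  have h1 : fst' (a • α) = algebraMap K (Fn K wd) a * fst' α := rfl
  have h2 : snd' (a • β) = algebraMap K (Fn K wd) a * snd' β := rfl
  rw [h1, h2, map_mul, cst_mul, cst_mul, cst_mul, Algebra.smul_def, algebraMap_Ser]
  ring

theorem Aff.zero : Aff U V (0 : Ser (Fn K wd)) := by
  have := Aff.const (U := U) (V := V) (wd := wd) (0 : K)
  rwa [map_zero] at this

theorem Aff.one : Aff U V (1 : Ser (Fn K wd)) := by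
  have := Aff.const (U := U) (V := V) (wd := wd) (1 : K)
  rwa [map_one] at this

theorem Aff.lamMem {α : Wd wd → K} (hα : α ∈ Gen K wd U 1) :
    Aff U V (lam _ * cst (fst' α)) := by
  refine ⟨0, α, 0, Submodule.subset_span hα, Submodule.zero_mem _, ?_⟩
  have h2 : snd' (0 : Wd wd → K) = 0 := rfl
  rw [h2, map_zero, cst_zero, zero_add, mul_zero, add_zero]

theorem Aff.muMem {β : Wd wd → K} (hβ : β ∈ Gen K wd V 1) :
    Aff U V (mu _ * cst (snd' β)) := by
  refine ⟨0, 0, β, Submodule.zero_mem _, Submodule.subset_span hβ, ?_⟩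
  have h2 : fst' (0 : Wd wd → K) = 0 := rfl
  rw [h2, map_zero, cst_zero, mul_zero, zero_add, zero_add]

/-- polynomials of degree at most one -/
theorem Aff.aeval {σ : Type} (f : σ → Ser (Fn K wd)) (hf : ∀ s, Aff U V (f s))
    (P : MvPolynomial σ K) (hP : P.totalDegree ≤ 1) : Aff U V (aeval f P) := by
  classical
  rw [P.as_sum, map_sum]
  have key : ∀ m ∈ P.support, Aff U V (MvPolynomial.aeval f (monomial m (P.coeff m))) := by
    intro m hm
    have h1 : m.degree ≤ 1 := by
      exact (MvPolynomial.le_totalDegree hm).trans hP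
    rcases Nat.le_one_iff_eq_zero_or_eq_one.1 h1 with h2 | h2
    · have h3 : m = 0 := (Finsupp.degree_eq_zero_iff m).1 h2
      rw [h3, MvPolynomial.aeval_monomial]
      simp only [Finsupp.prod_zero_index, mul_one]
      exact Aff.const _
    · obtain ⟨s, hs⟩ : ∃ s, m = Finsupp.single s 1 := by
        have h3 : m ≠ 0 := by
          rintro rfl
          simp at h2
        obtain ⟨s, hs⟩ := Finsupp.ne_iff.1 h3
        have h4 : m s ≤ m.degree := Finsupp.le_degree s m
        have h5 : m s = 1 := by
          have : m s ≠ 0 := hs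
          omega
        refine ⟨s, ?_⟩
        have h6 : m = (m - Finsupp.single s 1) + Finsupp.single s 1 := by
          ext t
          by_cases ht : t = s
          · subst ht; simp [h5]
          · simp [Ne.symm ht]
        have h7 : (m - Finsupp.single s 1).degree = 0 := by
          have := congrArg Finsupp.degree h6
          rw [map_add, Finsupp.degree_single, h2] at this
          omega
        rw [Finsupp.degree_eq_zero_iff] at h7
        rw [h7, zero_add] at h6
        exact h6
      rw [hs, MvPolynomial.aeval_monomial, Finsupp.prod_single_index (by simp), pow_one,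
        ← Algebra.smul_def]
      exact (hf s).smul _
  have : ∀ t ⊆ P.support, Aff U V (∑ m ∈ t, MvPolynomial.aeval f (monomial m (P.coeff m))) := by
    intro t
    induction t using Finset.induction_on with
    | empty => intro _; rw [sum_empty]; exact Aff.zero
    | insert a t ha ih =>
      intro ht
      rw [sum_insert ha]
      exact (key a (ht (mem_insert_self _ _))).add (ih fun i hi => ht (mem_insert_of_mem hi))
  exact this _ (Subset.refl _)

end Aff

section Factor

variable {U V : Finset ℕ} {w : ℕ}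

/-- a polynomial in `w` images of affine forms -/
theorem factor (f : Fin w → Ser (Fn K wd)) (hf : ∀ k, Aff U V (f k)) (Q : MvPolynomial (Fin w) K) :
    ∃ (M : ℕ → ℕ → Submodule K (Fn K wd)) (c : K), Fam U V w M ∧ InB M (aeval f Q) ∧
      cf 0 0 (aeval f Q) = algebraMap K _ c := by
  choose c α β hα hβ h using hf
  have hM := fam_Ta α (V := V) hα
  refine ⟨fun b e => Ta α b ⊓ VV K wd V e, ?_⟩
  have hk : ∀ k, InB (fun b e => Ta α b ⊓ VV K wd V e) (f k) := by
    intro k b e
    rw [h k, cf_add, cf_add, cf_cst, cf_lam_mul, cf_mu_mul]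
    refine Submodule.add_mem _ (Submodule.add_mem _ ?_ ?_) ?_
    · split_ifs with h1
      · rw [h1.1, h1.2, Algebra.algebraMap_eq_smul_one]
        exact Submodule.smul_mem _ _ hM.big.one
      · exact Submodule.zero_mem _
    · split_ifs with h1
      · rw [h1.1, h1.2]
        refine ⟨Submodule.subset_span ⟨fun _ => k, 1, ?_⟩, ?_⟩
        · ext p
          simp [fst', snd']
        · have := snd_mul_mem_VV (K := K) (V := V) (e := 0) (β := 1)
            (Submodule.subset_span (Gen_one V)) (α k)
          have h2 : fst' (α k) * snd' 1 = fst' (α k) := by ext p; simp [fst', snd']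
          rwa [h2] at this
      · exact Submodule.zero_mem _
    · split_ifs with h1
      · rw [h1.1, h1.2]
        refine ⟨Submodule.subset_span ⟨Fin.elim0, β k, ?_⟩, ?_⟩
        · ext p
          simp [fst', snd']
        · have := snd_mul_mem_VV (hβ k) 1
          have h2 : fst' 1 * snd' (β k) = snd' (β k) := by ext p; simp [fst', snd']
          rwa [h2] at this
      · exact Submodule.zero_mem _
  have h0 : ∀ k, cf 0 0 (f k) = algebraMap K _ (c k) := by
    intro k
    rw [h k, cf_add, cf_add, cf_cst, cf_lam_mul, cf_mu_mul]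
    simp
  refine ⟨eval c Q, hM, ?_, ?_⟩
  · induction Q using MvPolynomial.induction_on with
    | C a => rw [aeval_C, algebraMap_Ser]; exact InB.cst hM.big a
    | add p q hp hq => rw [map_add]; exact hp.add hq
    | mul_X p k hp => rw [map_mul, aeval_X]; exact hp.mul hM.big (hk k)
  · induction Q using MvPolynomial.induction_on with
    | C a => rw [aeval_C, algebraMap_Ser, cf_cst, eval_C]; simp
    | add p q hp hq => rw [map_add, map_add, map_add, cf_add, hp, hq]
    | mul_X p k hp => rw [map_mul, map_mul, map_mul, aeval_X, cf_zero_zero_mul, hp, h0, eval_X]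

end Factor

end Pool.Agent.Helper87.D3
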