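import Pool.Agent.Helper87.D3.Aff
import Pool.Agent.Helper55.D3.Widths
import Pool.Agent.Helper98.D3.Num

/-!
# Depth three: the rank bound
-/

set_option autoImplicit false

namespace Pool.Agent.Helper87.D3

open Finset MvPolynomial Helper97.Form

section Entries

variable {L : ℕ} {wd : Fin L → ℕ} {K : Type} [Field K] {ty : ℕ → Bool} {U V : Finset ℕ}

theorem aff_sc {e : ℕ} (hU : ty e = true → e ∈ U) (hV : ty e = false → e ∈ V)
    (φ : Wd wd → K) (hφ : ∀ p p' : Wd wd, (∀ k ∈ cov {e}, p k = p' k) → φ p = φ p') (F : Fn K wd)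
    (hF : F = fun p => φ (if ty e then p.1 else p.2)) : Aff U V (sc K ty wd e * cst F) := by
  rcases h : ty e with _ | _
  · have h1 : sc K ty wd e = mu _ := by
      unfold sc
      rw [h]
      rfl
    have h2 : F = snd' φ := by
      rw [hF, h]
      rfl
    rw [h1, h2]
    exact Aff.muMem ⟨{e}, singleton_subset_iff.2 (hV h), by simp, hφ⟩
  · have h1 : sc K ty wd e = lam _ := by
      unfold sc
      rw [h]
      rfl
    have h2 : F = fst' φ := by
      rw [hF, h]
      rfl
    rw [h1, h2]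
    exact Aff.lamMem ⟨{e}, singleton_subset_iff.2 (hU h), by simp, hφ⟩

theorem aff_il {e : ℕ} (hU : ty e = true → e ∈ U) (hV : ty e = false → e ∈ V) (i : Tau wd)
    (hi : e = i.1.val ∨ e = i.1.val + 1) : Aff U V (sc K ty wd e * cst (il K (ty e) i.1 i.2)) := by
  refine aff_sc hU hV (fun p => if p i.1 = i.2 then 1 else 0) ?_ _ ?_
  · intro p p' h
    have h1 : i.1 ∈ (cov {e} : Finset (Fin L)) := by
      rw [mem_cov, mem_singleton, mem_singleton]
      omega
    rw [h _ h1]
  · ext p
    rcases h : ty e with _ | _ <;> rfl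

theorem aff_gN (hU : ∀ e ≤ L, ty e = true → e ∈ U) (hV : ∀ e ≤ L, ty e = false → e ∈ V)
    (i j : Tau wd) : Aff U V (gN K ty i j) := by
  unfold gN
  split_ifs with h0
  · have hj := j.1.isLt
    refine aff_sc (hU _ (by omega)) (hV _ (by omega))
      (fun p => (if p i.1 = i.2 then 1 else 0) * (if p j.1 = j.2 then 1 else 0)) ?_ _ ?_
    · intro p p' h
      have h1 : i.1 ∈ (cov {j.1.val} : Finset (Fin L)) := by
        rw [mem_cov, mem_singleton, mem_singleton]
        omega
      have h2 : j.1 ∈ (cov {j.1.val} : Finset (Fin L)) := by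
        rw [mem_cov, mem_singleton, mem_singleton]
        omega
      rw [h _ h1, h _ h2]
    · ext p
      rcases h : ty j.1.val with _ | _ <;> rfl
  · exact Aff.zero

theorem aff_acy (hU : ∀ e ≤ L, ty e = true → e ∈ U) (hV : ∀ e ≤ L, ty e = false → e ∈ V)
    (i j : Option (Tau wd)) :
    Aff U V (acy (0 : Ser (Fn K wd)) (gu K ty) (gv K ty) (gN K ty) i j) := by
  rcases i with _ | i <;> rcases j with _ | j
  · exact Aff.zero
  · show Aff U V (gu K ty j)
    unfold gu
    split_ifs with h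
    · exact aff_il (hU 0 (by omega)) (hV 0 (by omega)) j (Or.inl h.symm)
    · exact Aff.zero
  · show Aff U V (gv K ty i)
    unfold gv
    split_ifs with h
    · exact aff_il (hU L (by omega)) (hV L (by omega)) i (Or.inr h.symm)
    · exact Aff.zero
  · show Aff U V ((if i = j then 1 else 0) + gN K ty i j)
    refine Aff.add ?_ (aff_gN hU hV i j)
    split_ifs
    · exact Aff.one
    · exact Aff.zero

end Entries

section Nat

variable {L : ℕ} {wd : Fin L → ℕ} {ty : ℕ → Bool} {R S : Type} [CommRing R] [CommRing S]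

/-- change of the coefficients of functions -/
def fnMap (wd : Fin L → ℕ) (f : R →+* S) : Fn R wd →+* Fn S wd := f.compLeft _

/-- change of the coefficients of series -/
noncomputable def serMap (wd : Fin L → ℕ) (f : R →+* S) : Ser (Fn R wd) →+* Ser (Fn S wd) :=
  PowerSeries.map (PowerSeries.map (fnMap wd f))

theorem cf_serMap (f : R →+* S) (b e : ℕ) (F : Ser (Fn R wd)) :
    cf b e (serMap wd f F) = fnMap wd f (cf b e F) := by
  simp [cf, serMap]

theorem serMap_cst (f : R →+* S) (F : Fn R wd) : serMap wd f (cst F) = cst (fnMap wd f F) := by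
  simp [cst, serMap]

theorem serMap_sc (f : R →+* S) (e : ℕ) : serMap wd f (sc R ty wd e) = sc S ty wd e := by
  unfold sc
  split_ifs
  · simp [lam, serMap]
  · simp [mu, serMap]

theorem fnMap_il (f : R →+* S) (t : Bool) (k : Fin L) (a : Fin (wd k)) :
    fnMap wd f (il R t k a) = il S t k a := by
  ext p
  show f (il R t k a p) = il S t k a p
  unfold il
  rw [apply_ite f, map_one, map_zero]

theorem serMap_acy (f : R →+* S) (i j : Option (Tau wd)) :
    serMap wd f (acy (0 : Ser (Fn R wd)) (gu R ty) (gv R ty) (gN R ty) i j) =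
      acy (0 : Ser (Fn S wd)) (gu S ty) (gv S ty) (gN S ty) i j := by
  rcases i with _ | i <;> rcases j with _ | j
  · exact map_zero _
  · show serMap wd f (gu R ty j) = gu S ty j
    unfold gu
    split_ifs
    · rw [map_mul, serMap_cst, serMap_sc, fnMap_il]
    · exact map_zero _
  · show serMap wd f (gv R ty i) = gv S ty i
    unfold gv
    split_ifs
    · rw [map_mul, serMap_cst, serMap_sc, fnMap_il]
    · exact map_zero _
  · show serMap wd f ((if i = j then 1 else 0) + gN R ty i j) = (if i = j then 1 else 0) + gN S ty i j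
    rw [map_add]
    congr 1
    · split_ifs
      · exact map_one _
      · exact map_zero _
    · unfold gN
      split_ifs
      · rw [map_mul, serMap_cst, serMap_sc, map_mul, fnMap_il, fnMap_il]
      · exact map_zero _

variable {n k : ℕ} (e : Fin n ≃ Option (Tau wd) ⊕ Fin k)

/-- the matrix which is substituted -/
noncomputable def EM (R : Type) [CommRing R] (ty : ℕ → Bool) (e : Fin n ≃ Option (Tau wd) ⊕ Fin k) :
    Matrix (Fin n) (Fin n) (Ser (Fn R wd)) :=
  padM e (acy (0 : Ser (Fn R wd)) (gu R ty) (gv R ty) (gN R ty))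

theorem serMap_EM (f : R →+* S) (i j : Fin n) : serMap wd f (EM R ty e i j) = EM S ty e i j := by
  unfold EM
  rw [padM_map]
  have h : (acy (0 : Ser (Fn R wd)) (gu R ty) (gv R ty) (gN R ty)).map (serMap wd f) =
      acy (0 : Ser (Fn S wd)) (gu S ty) (gv S ty) (gN S ty) :=
    Matrix.ext fun i j => serMap_acy f i j
  exact congrArg (fun M => padM e M i j) h

/-- the substitution -/
noncomputable def Ph (R : Type) [CommRing R] (ty : ℕ → Bool) (e : Fin n ≃ Option (Tau wd) ⊕ Fin k) :
    MvPolynomial (Fin n × Fin n) R →ₐ[R] Ser (Fn R wd) :=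
  aeval fun ij => EM R ty e ij.1 ij.2

theorem serMap_algebraMap (f : R →+* S) (c : R) :
    serMap wd f (algebraMap R (Ser (Fn R wd)) c) = algebraMap S (Ser (Fn S wd)) (f c) := by
  have h1 : ∀ (T : Type) [CommRing T] (c : T),
      algebraMap T (Ser (Fn T wd)) c = cst (algebraMap T (Fn T wd) c) := by
    intro T _ c
    rw [PowerSeries.algebraMap_apply, PowerSeries.algebraMap_apply]
    rfl
  rw [h1, h1, serMap_cst]
  congr 1

theorem serMap_Ph (f : R →+* S) (P : MvPolynomial (Fin n × Fin n) R) :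
    serMap wd f (Ph R ty e P) = Ph S ty e (map f P) := by
  unfold Ph
  induction P using MvPolynomial.induction_on with
  | C a => rw [aeval_C, map_C, aeval_C, serMap_algebraMap]
  | add p q hp hq => rw [map_add, map_add, map_add, map_add, hp, hq]
  | mul_X p k hp => rw [map_mul, map_mul, map_mul, map_mul, hp, aeval_X, map_X, aeval_X, serMap_EM]

end Nat

section Perm

/-- the permanent as a polynomial -/
noncomputable def permP (n : ℕ) (K : Type) [CommRing K] : MvPolynomial (Fin n × Fin n) K :=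
  (Matrix.of fun i j : Fin n => (X (i, j) : MvPolynomial (Fin n × Fin n) K)).permanent

variable {L : ℕ} {wd : Fin L → ℕ} {ty : ℕ → Bool} {K : Type} [CommRing K] {n k : ℕ}

theorem Ph_permP (e : Fin n ≃ Option (Tau wd) ⊕ Fin k) (hL : 0 < L)
    (hw : ∀ k : Fin L, ty k.val = ty (k.val + 1) → wd k = 1) :
    Ph K ty e (permP n K) = (∏ e ∈ range (L + 1), sc K ty wd e) * cst (dl K wd) := by
  rw [← perm_path hL hw, ← padM_permanent e]
  unfold Ph permP Matrix.permanent
  rw [map_sum]
  refine sum_congr rfl fun σ _ => ?_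
  rw [map_prod]
  refine prod_congr rfl fun i _ => ?_
  rw [Matrix.of_apply, aeval_X]
  rfl

theorem cf_Ph_permP (e : Fin n ≃ Option (Tau wd) ⊕ Fin k) (hL : 0 < L)
    (hw : ∀ k : Fin L, ty k.val = ty (k.val + 1) → wd k = 1) :
    cf ((range (L + 1)).filter fun e => ty e = true).card
      ((range (L + 1)).filter fun e => ty e = false).card (Ph K ty e (permP n K)) = dl K wd := by
  rw [Ph_permP e hL hw, prod_sc]
  have h1 : ((range (L + 1)).filter fun e => ¬ ty e = true) =
      (range (L + 1)).filter fun e => ty e = false := by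
    refine filter_congr fun e _ => ?_
    simp
  rw [h1, cf_lam_pow_mul, if_pos ⟨rfl, rfl⟩]

theorem permP_ne_zero {K : Type} [CommRing K] [Nontrivial K] (n : ℕ) : permP n K ≠ 0 := by
  intro h
  have h1 : eval (fun ij : Fin n × Fin n => if ij.1 = ij.2 then (1 : K) else 0) (permP n K) = 1 := by
    have h2 : eval (fun ij : Fin n × Fin n => if ij.1 = ij.2 then (1 : K) else 0) (permP n K) =
        (1 : Matrix (Fin n) (Fin n) K).permanent := by
      unfold permP Matrix.permanent
      rw [map_sum]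
      refine sum_congr rfl fun σ _ => ?_
      rw [map_prod]
      refine prod_congr rfl fun i _ => ?_
      rw [Matrix.of_apply, eval_X, Matrix.one_apply]
    rw [h2, Matrix.permanent_one]
  rw [h, map_zero] at h1
  exact zero_ne_one h1

end Perm

section Rank

variable {X Y K : Type} [Field K]

theorem SumLe.rankLe {P : (X × Y → K) → Prop} {N M : ℕ} {f : X × Y → K} (hf : SumLe P N f)
    (hP : ∀ g, P g → RankLe M g) : RankLe (N * M) f := by
  obtain ⟨s, h1, h2, rfl⟩ := hf
  refine RankLe.mono (Nat.mul_le_mul_right M h1) ?_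
  clear h1
  induction s using Multiset.induction_on with
  | empty => exact RankLe.zero
  | cons a s ih =>
    rw [Multiset.sum_cons, Multiset.card_cons, add_mul, one_mul, add_comm (s.card * M)]
    exact (hP a (h2 a (Multiset.mem_cons_self _ _))).add
      (ih fun g hg => h2 g (Multiset.mem_cons_of_mem hg))

theorem RankLe.sum' {ι : Type} (s : Finset ι) {N : ℕ} (f : ι → X × Y → K)
    (hf : ∀ i ∈ s, RankLe N (f i)) : RankLe (s.card * N) (∑ i ∈ s, f i) := RankLe.sum s f hf

end Rank

section Main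

/-- sums of `T` products of `D` polynomials in `w` affine forms -/
def SPF (K : Type) [Field K] (n T D w : ℕ) (F : MvPolynomial (Fin n × Fin n) K) : Prop :=
  ∃ (l : Fin T → Fin D → Fin w → MvPolynomial (Fin n × Fin n) K)
    (Q : Fin T → Fin D → MvPolynomial (Fin w) K),
    (∀ i j k, (l i j k).totalDegree ≤ 1) ∧ F = ∑ i, ∏ j, aeval (l i j) (Q i j)

variable {L : ℕ} {wd : Fin L → ℕ} {ty : ℕ → Bool} {n k : ℕ}

theorem rank_SPF {E : Type} [Field E] [CharZero E] (e : Fin n ≃ Option (Tau wd) ⊕ Fin k)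
    {U V : Finset ℕ} (hU : ∀ e ≤ L, ty e = true → e ∈ U) (hV : ∀ e ≤ L, ty e = false → e ∈ V)
    {h HU HV D w T : ℕ} (hh : 1 ≤ h) (hHU : 1 ≤ HU) (hHV : 1 ≤ HV) (hD : 1 ≤ D)
    (hwd : ∀ k, 1 ≤ wd k) (hUc : ∀ e ∈ U, wcov wd {e} ≤ HU) (hVc : ∀ e ∈ V, wcov wd {e} ≤ HV)
    (hnum : NumOK (fun b => D * w ^ b) h HU HV)
    {F : MvPolynomial (Fin n × Fin n) E} (hF : SPF E n T D w F) (b c : ℕ) :
    RankLe (T * ((4 ^ b * 3 ^ c) * (2 ^ V.card * 2 ^ U.card *
      Nat.sqrt (HU ^ b * HV ^ c / h ^ b)))) (cf b c (Ph E ty e F)) := by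
  obtain ⟨l, Q, hl, rfl⟩ := hF
  rw [map_sum, cf_sum]
  refine (RankLe.sum' univ (N := (4 ^ b * 3 ^ c) * (2 ^ V.card * 2 ^ U.card *
      Nat.sqrt (HU ^ b * HV ^ c / h ^ b))) _ fun i _ => ?_).mono (by rw [card_univ, Fintype.card_fin])
  rw [map_prod]
  have hA : ∀ j k, Aff U V (Ph E ty e (l i j k)) := by
    intro j k
    refine Aff.aeval _ (fun s => ?_) _ (hl i j k)
    unfold EM
    refine padM_mem e _ (S := {x | Aff U V x}) ?_ ?_ (fun a b => ?_) _ _
    · exact Aff.zero
    · exact Aff.one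
    · exact aff_acy hU hV a b
  have hf := fun j => factor (fun k => Ph E ty e (l i j k)) (hA j) (Q i j)
  choose M cc hM hB h0 using hf
  have hcomp : ∀ j, Ph E ty e (aeval (l i j) (Q i j)) = aeval (fun k => Ph E ty e (l i j k)) (Q i j) := by
    intro j
    have := comp_aeval (f := l i j) (Ph E ty e)
    exact congrArg (fun g : MvPolynomial (Fin w) E →ₐ[E] Ser (Fn E wd) => g (Q i j)) this
  rw [prod_congr rfl fun j _ => hcomp j]
  have hg := gate hHV hD hnum M hM (fun j => aeval (fun k => Ph E ty e (l i j k)) (Q i j)) hB cc h0 b c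
  refine hg.rankLe fun g hg => ?_
  obtain ⟨N, hN1, hN2⟩ := hg.rank hwd hHU hHV hUc hVc
  refine hN2.mono (Nat.mul_le_mul_left _ ?_)
  rw [Nat.le_sqrt', Nat.le_div_iff_mul_le (by positivity)]
  exact hN1

theorem det_ne_zero {K R E : Type} [Field K] [CommRing R] [Field E] (ev : R →+* K) (j : R →+* E)
    (hj : Function.Injective j) (e : Fin n ≃ Option (Tau wd) ⊕ Fin k) (hL : 0 < L)
    (hw : ∀ k : Fin L, ty k.val = ty (k.val + 1) → wd k = 1)
    (P : MvPolynomial (Fin n × Fin n) R) (hP : map ev P = permP n K) {b c : ℕ}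
    (hb : b = ((range (L + 1)).filter fun e => ty e = true).card)
    (hc : c = ((range (L + 1)).filter fun e => ty e = false).card) :
    (Matrix.of fun p p' : Wd wd => cf b c (Ph E ty e (map j P)) (p, p')).det ≠ 0 := by
  set MR : Matrix (Wd wd) (Wd wd) R := Matrix.of fun p p' : Wd wd => cf b c (Ph R ty e P) (p, p')
    with hMR
  have h1 : (Matrix.of fun p p' : Wd wd => cf b c (Ph E ty e (map j P)) (p, p')) =
      j.mapMatrix MR := by
    ext p p'
    rw [RingHom.mapMatrix_apply, Matrix.map_apply, hMR, Matrix.of_apply, Matrix.of_apply,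
      ← serMap_Ph, cf_serMap]
    rfl
  have h2 : ev.mapMatrix MR = 1 := by
    ext p p'
    have h3 : ev (cf b c (Ph R ty e P) (p, p')) = cf b c (Ph K ty e (map ev P)) (p, p') := by
      rw [← serMap_Ph, cf_serMap]
      rfl
    rw [RingHom.mapMatrix_apply, Matrix.map_apply, hMR, Matrix.of_apply, h3, hP, hb, hc,
      cf_Ph_permP e hL hw, Matrix.one_apply]
    rfl
  rw [h1, ← RingHom.map_det]
  intro h3
  have h4 : MR.det = 0 := hj (by rw [h3, map_zero])
  have h5 : ev MR.det = 1 := by rw [RingHom.map_det, h2, Matrix.det_one]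
  rw [h4, map_zero] at h5
  exact zero_ne_one h5

open Pool.Agent.Helper55.D3 in
/-- the bound with parameters -/
theorem core {n D w T q s : ℕ} (hD : 1 ≤ D) (hq : 1 ≤ q)
    (hD4 : D ^ 4 ≤ (2 ^ 20) ^ (q ^ 2)) (hw4 : w ^ 4 ≤ (2 ^ 20) ^ q)
    (hn : 4 * s * (2 ^ 20) ^ q ≤ n)
    {K R E : Type} [Field K] [CommRing R] [Field E] [CharZero E] (ev : R →+* K) (j : R →+* E)
    (hj : Function.Injective j) (P : MvPolynomial (Fin n × Fin n) R) (hP : map ev P = permP n K)
    (hF : SPF E n T D w (map j P)) : 2 ^ (q * s) ≤ T := by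
  have hT : 1 ≤ T := by
    by_contra h0
    have h1 : T = 0 := by omega
    subst h1
    obtain ⟨l, Q, _, h2⟩ := hF
    rw [univ_eq_empty, sum_empty] at h2
    have h3 : P = 0 := by
      apply map_injective j hj
      rw [h2, map_zero]
    rw [h3, map_zero] at hP
    exact permP_ne_zero n hP.symm
  rcases Nat.eq_zero_or_pos s with hs | hs
  · rw [hs, mul_zero, pow_zero]
    exact hT
  obtain ⟨h, hh⟩ : ∃ h : ℕ, h = 2 ^ 20 := ⟨_, rfl⟩
  rw [← hh] at hD4 hw4 hn
  have hh2 : 2 ≤ h := by rw [hh]; norm_num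
  have hh1 : 1 ≤ h := by omega
  have hL : 0 < L q s := by
    have h1 := succ_L (q := q) hs
    have h2 : 3 ≤ (2 * q + 1) * s := by nlinarith
    omega
  have hcard : Fintype.card (Option (Tau (wd h q s))) ≤ n := by
    rw [Fintype.card_option, Fintype.card_sigma]
    simp only [Fintype.card_fin]
    exact (sum_wd_le hh2 hs).trans hn
  obtain ⟨k, ⟨e⟩⟩ := exists_padE hcard
  have hr : (range (L q s + 1)) = range ((2 * q + 1) * s) := by rw [succ_L hs]
  have hb : q * s = ((range (L q s + 1)).filter fun e => ty q e = true).card := by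
    rw [hr]
    exact (card_UE q s).symm
  have hc : (q + 1) * s = ((range (L q s + 1)).filter fun e => ty q e = false).card := by
    rw [hr]
    exact (card_VE q s).symm
  have hdet := det_ne_zero (ty := ty q) ev j hj e hL (fun k hk => wd_eq_one h q s k hk) P hP hb hc
  have hU : ∀ e ≤ L q s, ty q e = true → e ∈ UE q s := by
    intro e he h1
    unfold UE
    rw [← succ_L hs, mem_filter, mem_range]
    exact ⟨by omega, h1⟩
  have hV : ∀ e ≤ L q s, ty q e = false → e ∈ VE q s := by
    intro e he h1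
    unfold VE
    rw [← succ_L hs, mem_filter, mem_range]
    exact ⟨by omega, h1⟩
  have hrk := rank_SPF (ty := ty q) e hU hV hh1 (Nat.one_le_pow (q + 1) h hh1)
    (Nat.one_le_pow q h hh1) hD (one_le_wd hh1 q s) (wcov_UE hh1 q s) (wcov_VE hh1 q s)
    (fun b e hbe => Pool.Helper98.D3.numOK h q D w hh2 hq hD4 hw4 b e hbe) hF (q * s) ((q + 1) * s)
  have h1 := card_le_of_rankLe hrk hdet
  rw [card_Wd h hs, card_UE, card_VE] at h1
  have h2 : (h ^ (q + 1)) ^ (q * s) * (h ^ q) ^ ((q + 1) * s) = (h ^ (q * (q + 1) * s)) ^ 2 := by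
    rw [← pow_mul, ← pow_mul, ← pow_add, ← pow_mul]
    congr 1
    ring
  rw [h2] at h1
  set Z : ℕ := h ^ (q * (q + 1) * s) with hZ
  have hZ1 : 0 < Z := by positivity
  set M : ℕ := Nat.sqrt (Z ^ 2 / h ^ (q * s)) with hM
  have h3 : M ^ 2 * h ^ (q * s) ≤ Z ^ 2 := by
    have : M ^ 2 ≤ Z ^ 2 / h ^ (q * s) := by
      rw [hM, sq]
      exact Nat.sqrt_le _
    exact (Nat.le_div_iff_mul_le (by positivity)).1 this
  refine Pool.Helper98.D3.two_pow_le (q * s) ((q + 1) * s) T (by nlinarith) ?_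
  have h4 : Z ^ 2 * h ^ (q * s) ≤ (T * (4 ^ (q * s) * 3 ^ ((q + 1) * s)) *
      (2 ^ ((q + 1) * s) * 2 ^ (q * s))) ^ 2 * Z ^ 2 := by
    calc Z ^ 2 * h ^ (q * s) ≤ (T * ((4 ^ (q * s) * 3 ^ ((q + 1) * s)) *
          (2 ^ ((q + 1) * s) * 2 ^ (q * s) * M))) ^ 2 * h ^ (q * s) :=
          Nat.mul_le_mul_right _ (Nat.pow_le_pow_left h1 2)
      _ = (T * (4 ^ (q * s) * 3 ^ ((q + 1) * s)) *
          (2 ^ ((q + 1) * s) * 2 ^ (q * s))) ^ 2 * (M ^ 2 * h ^ (q * s)) := by ring
      _ ≤ _ := Nat.mul_le_mul_left _ h3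
  rw [mul_comm] at h4
  rw [← hh]
  exact Nat.le_of_mul_le_mul_right h4 (by positivity)

end Main

end Pool.Agent.Helper87.D3
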