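import Pool.Agent.Helper87.D3.Series
import Pool.Agent.Helper87.D3.Rank

/-!
# Depth three: the coefficients of a product of juntas are sums of few good products
-/

set_option autoImplicit false

namespace Pool.Agent.Helper87.D3

open Finset

section SumLe

variable {B : Type} [AddCommMonoid B]

/-- sums of at most `N` elements with the property `P` -/
def SumLe (P : B → Prop) (N : ℕ) (f : B) : Prop :=
  ∃ s : Multiset B, s.card ≤ N ∧ (∀ g ∈ s, P g) ∧ s.sum = f

theorem SumLe.zero {P : B → Prop} {N : ℕ} : SumLe P N 0 := ⟨0, by simp, by simp, by simp⟩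

theorem SumLe.mono {P : B → Prop} {N N' : ℕ} (h : N ≤ N') {f : B} (hf : SumLe P N f) :
    SumLe P N' f := by
  obtain ⟨s, h1, h2, h3⟩ := hf
  exact ⟨s, h1.trans h, h2, h3⟩

theorem SumLe.single {P : B → Prop} {f : B} (hf : P f) : SumLe P 1 f :=
  ⟨{f}, by simp, by simpa using hf, by simp⟩

theorem SumLe.add {P : B → Prop} {N N' : ℕ} {f g : B} (hf : SumLe P N f) (hg : SumLe P N' g) :
    SumLe P (N + N') (f + g) := by
  obtain ⟨s, h1, h2, h3⟩ := hf
  obtain ⟨t, k1, k2, k3⟩ := hg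
  refine ⟨s + t, by rw [Multiset.card_add]; omega, fun x hx => ?_, by
    rw [Multiset.sum_add, h3, k3]⟩
  rcases Multiset.mem_add.1 hx with h | h
  · exact h2 x h
  · exact k2 x h

theorem SumLe.sum {P : B → Prop} {ι : Type} (s : Finset ι) (N : ι → ℕ) (f : ι → B)
    (h : ∀ i ∈ s, SumLe P (N i) (f i)) : SumLe P (∑ i ∈ s, N i) (∑ i ∈ s, f i) := by
  classical
  induction s using Finset.induction_on with
  | empty => simpa using SumLe.zero
  | insert a s ha ih =>
    rw [sum_insert ha, sum_insert ha]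
    exact (h a (mem_insert_self _ _)).add (ih fun i hi => h i (mem_insert_of_mem hi))

theorem SumLe.map {B' : Type} [AddCommMonoid B'] {P : B → Prop} {Q : B' → Prop} {N : ℕ} {f : B}
    (hf : SumLe P N f) (φ : B →+ B') (h : ∀ g, P g → Q (φ g)) : SumLe Q N (φ f) := by
  obtain ⟨s, h1, h2, h3⟩ := hf
  refine ⟨s.map φ, by simpa using h1, fun x hx => ?_, by rw [← h3, map_multiset_sum]⟩
  obtain ⟨g, hg, rfl⟩ := Multiset.mem_map.1 hx
  exact h g (h2 g hg)

end SumLe

section Good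

variable {L : ℕ} {wd : Fin L → ℕ} {K : Type} [Field K]

/-- a product of a part of low degree in the second word, a part of low degree in the first word
and a part of small rank -/
def Good (K : Type) [Field K] (wd : Fin L → ℕ) (U V : Finset ℕ) (h HU HV b e : ℕ)
    (f : Fn K wd) : Prop :=
  ∃ (x y ρ : ℕ) (A B C : Fn K wd), A ∈ VV K wd V x ∧ B ∈ UU K wd U y ∧ RankLe ρ C ∧
    f = A * B * C ∧ (HV ^ x * HU ^ y * ρ) ^ 2 * h ^ b ≤ HU ^ b * HV ^ e

variable {U V : Finset ℕ} {h HU HV : ℕ}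

theorem Good.mul {b e b' e' : ℕ} {f g : Fn K wd} (hf : Good K wd U V h HU HV b e f)
    (hg : Good K wd U V h HU HV b' e' g) :
    Good K wd U V h HU HV (b + b') (e + e') (f * g) := by
  obtain ⟨x, y, ρ, A, B, C, hA, hB, hC, rfl, h1⟩ := hf
  obtain ⟨x', y', ρ', A', B', C', hA', hB', hC', rfl, h2⟩ := hg
  refine ⟨x + x', y + y', ρ * ρ', A * A', B * B', C * C', mul_mem_VV hA hA', mul_mem_UU hB hB',
    hC.mul hC', by ring, ?_⟩
  have := Nat.mul_le_mul h1 h2
  calc (HV ^ (x + x') * HU ^ (y + y') * (ρ * ρ')) ^ 2 * h ^ (b + b')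
      = (HV ^ x * HU ^ y * ρ) ^ 2 * h ^ b * ((HV ^ x' * HU ^ y' * ρ') ^ 2 * h ^ b') := by ring
    _ ≤ _ := this
    _ = _ := by ring

theorem Good.smul {b e : ℕ} {f : Fn K wd} (hf : Good K wd U V h HU HV b e f) (c : K) :
    Good K wd U V h HU HV b e (c • f) := by
  obtain ⟨x, y, ρ, A, B, C, hA, hB, hC, rfl, h1⟩ := hf
  exact ⟨x, y, ρ, A, B, c • C, hA, hB, hC.smul c, by rw [mul_smul_comm], h1⟩

theorem SumLe.smulGood {b e N : ℕ} {f : Fn K wd}
    (hf : SumLe (Good K wd U V h HU HV b e) N f) (c : K) :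
    SumLe (Good K wd U V h HU HV b e) N (c • f) :=
  hf.map (DistribSMul.toAddMonoidHom (Fn K wd) c) fun _ hg => hg.smul c

theorem SumLe.mulGood {b e b' e' N : ℕ} {f g : Fn K wd}
    (hf : SumLe (Good K wd U V h HU HV b e) N f) (hg : Good K wd U V h HU HV b' e' g) :
    SumLe (Good K wd U V h HU HV (b + b') (e + e')) N (f * g) :=
  hf.map (AddMonoidHom.mulRight g) fun _ hf' => hf'.mul hg

/-- blocks -/
structure Blk (U V : Finset ℕ) (N : ℕ → ℕ) (b e : ℕ) (f : Fn K wd) : Prop where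
  v : f ∈ VV K wd V e
  u : f ∈ UU K wd U b
  r : RankLe (N b) f

/-- the numerical conditions for blocks -/
def NumOK (N : ℕ → ℕ) (h HU HV : ℕ) : Prop :=
  ∀ b e : ℕ, 1 ≤ b + e → (HV ^ e) ^ 2 * h ^ b ≤ HU ^ b * HV ^ e ∨
    (HU ^ b) ^ 2 * h ^ b ≤ HU ^ b * HV ^ e ∨ (N b) ^ 2 * h ^ b ≤ HU ^ b * HV ^ e

theorem Blk.good {N : ℕ → ℕ} (hN : NumOK N h HU HV) {b e : ℕ} (hbe : 1 ≤ b + e) {f : Fn K wd}
    (hf : Blk U V N b e f) : Good K wd U V h HU HV b e f := by
  rcases hN b e hbe with h1 | h1 | h1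
  · exact ⟨e, 0, 1, f, 1, 1, hf.v, one_mem_UU U, RankLe.one, by ring, by simpa using h1⟩
  · exact ⟨0, b, 1, 1, f, 1, one_mem_VV V, hf.u, RankLe.one, by ring, by simpa using h1⟩
  · exact ⟨0, 0, N b, 1, 1, f, one_mem_VV V, one_mem_UU U, hf.r, by ring, by simpa using h1⟩

theorem RankLe.sum {X Y : Type} {ι : Type} (s : Finset ι) {N : ℕ} (f : ι → X × Y → K)
    (hf : ∀ i ∈ s, RankLe N (f i)) : RankLe (s.card * N) (∑ i ∈ s, f i) := by
  classical
  induction s using Finset.induction_on with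
  | empty => simpa using RankLe.zero
  | insert a s ha ih =>
    rw [sum_insert ha, card_insert_of_notMem ha, add_mul, one_mul, add_comm (s.card * N)]
    exact (hf a (mem_insert_self _ _)).add (ih fun i hi => hf i (mem_insert_of_mem hi))

/-- the families of submodules used for the factors -/
structure Fam (U V : Finset ℕ) (w : ℕ) (M : ℕ → ℕ → Submodule K (Fn K wd)) : Prop where
  big : Big M
  v : ∀ b e, M b e ≤ VV K wd V e
  u : ∀ b e, M b e ≤ UU K wd U b
  r : ∀ b e, ∀ f ∈ M b e, RankLe (w ^ b) f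

/-- geometric sums in two variables -/
theorem geo2 (b e : ℕ) :
    2 * ∑ i ∈ (antidiagonal b), ∑ j ∈ antidiagonal e, 4 ^ i.1 * 3 ^ j.1 + 2 * (4 ^ b * 3 ^ e) ≤
      6 * (4 ^ b * 3 ^ e) ∧
    6 * ∑ i ∈ (antidiagonal b).erase (b, 0), ∑ j ∈ antidiagonal e, 4 ^ i.1 * 3 ^ j.1 ≤
      3 * (4 ^ b * 3 ^ e) := by
  have g4 : ∀ n, 3 * ∑ i ∈ range n, 4 ^ i + 1 = 4 ^ n := by
    intro n
    induction n with
    | zero => simp
    | succ n ih => rw [sum_range_succ, pow_succ]; omega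
  have g3 : ∀ n, 2 * ∑ i ∈ range n, 3 ^ i + 1 = 3 ^ n := by
    intro n
    induction n with
    | zero => simp
    | succ n ih => rw [sum_range_succ, pow_succ]; omega
  have h3 : ∑ j ∈ antidiagonal e, 3 ^ j.1 = ∑ i ∈ range (e + 1), 3 ^ i := by
    rw [Nat.sum_antidiagonal_eq_sum_range_succ (fun i _ => 3 ^ i)]
  have h4 : ∑ j ∈ antidiagonal b, 4 ^ j.1 = ∑ i ∈ range (b + 1), 4 ^ i := by
    rw [Nat.sum_antidiagonal_eq_sum_range_succ (fun i _ => 4 ^ i)]
  have h4' : ∑ i ∈ (antidiagonal b).erase (b, 0), 4 ^ i.1 = ∑ i ∈ range b, 4 ^ i := by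
    have hmem : (b, 0) ∈ antidiagonal b := by simp
    have := add_sum_erase (antidiagonal b) (fun i => 4 ^ i.1) hmem
    rw [h4, sum_range_succ] at this
    simp only at this
    omega
  have s1 : ∑ i ∈ (antidiagonal b), ∑ j ∈ antidiagonal e, 4 ^ i.1 * 3 ^ j.1 =
      (∑ i ∈ range (b + 1), 4 ^ i) * ∑ i ∈ range (e + 1), 3 ^ i := by
    rw [← h3, ← h4, sum_mul_sum]
  have s2 : ∑ i ∈ (antidiagonal b).erase (b, 0), ∑ j ∈ antidiagonal e, 4 ^ i.1 * 3 ^ j.1 =
      (∑ i ∈ range b, 4 ^ i) * ∑ i ∈ range (e + 1), 3 ^ i := by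
    rw [← h3, ← h4', sum_mul_sum]
  rw [s1, s2]
  have a1 := g4 (b + 1)
  have a2 := g4 b
  have a3 := g3 (e + 1)
  set P := ∑ i ∈ range (b + 1), 4 ^ i
  set P' := ∑ i ∈ range b, 4 ^ i
  set Q := ∑ i ∈ range (e + 1), 3 ^ i
  rw [pow_succ] at a1 a3
  constructor
  · have b1 : 3 * P ≤ 4 ^ b * 4 := by omega
    have b2 : 2 * Q ≤ 3 ^ e * 3 := by omega
    have := Nat.mul_le_mul b1 b2
    nlinarith
  · have b1 : 3 * P' ≤ 4 ^ b := by omega
    have b2 : 2 * Q ≤ 3 ^ e * 3 := by omega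
    have := Nat.mul_le_mul b1 b2
    nlinarith

/-- the main recursion: products of units -/
theorem unit_gate [CharZero K] {w : ℕ} (hV : 1 ≤ HV) {D : ℕ}
    (hnum : NumOK (fun b => D * w ^ b) h HU HV) {ι : Type} [DecidableEq ι] (s : Finset ι)
    (hs : s.card ≤ D) (M : ι → ℕ → ℕ → Submodule K (Fn K wd)) (hM : ∀ i ∈ s, Fam U V w (M i))
    (A : ι → Ser (Fn K wd)) (hA : ∀ i ∈ s, InB (M i) (A i)) (c : ι → K)
    (hc : ∀ i ∈ s, cf 0 0 (A i) = algebraMap K _ (c i)) (hc0 : ∀ i ∈ s, c i ≠ 0) (b e : ℕ) :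
    SumLe (Good K wd U V h HU HV b e) (4 ^ b * 3 ^ e) (cf b e (∏ i ∈ s, A i)) := by
  have hex : ∀ i, ∃ S : Ser (Fn K wd), i ∈ s → Dl (A i) = A i * S ∧ InB (M i) S ∧
      ∀ e, cf 0 e S = 0 := by
    intro i
    by_cases hi : i ∈ s
    · obtain ⟨S, hS⟩ := exists_logDeriv (hM i hi).big (hA i hi) (hc0 i hi) (hc i hi)
      exact ⟨S, fun _ => hS⟩
    · exact ⟨0, fun h => absurd h hi⟩
  choose S hS using hex
  set G := ∏ i ∈ s, A i with hG
  set T := ∑ i ∈ s, S i with hT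
  have hDG : Dl G = G * T := Dl_prod s A S fun i hi => (hS i hi).1
  have hT0 : ∀ e, cf 0 e T = 0 := by
    intro e
    rw [hT, cf_sum]
    exact sum_eq_zero fun i hi => (hS i hi).2.2 e
  have hTB : ∀ b e, Blk U V (fun b => D * w ^ b) b e (cf b e T) := by
    intro b e
    rw [hT, cf_sum]
    refine ⟨?_, ?_, ?_⟩
    · exact Submodule.sum_mem _ fun i hi => (hM i hi).v b e ((hS i hi).2.1 b e)
    · exact Submodule.sum_mem _ fun i hi => (hM i hi).u b e ((hS i hi).2.1 b e)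
    · exact (RankLe.sum s _ fun i hi => (hM i hi).r b e _ ((hS i hi).2.1 b e)).mono
        (Nat.mul_le_mul_right _ hs)
  -- the family of all functions of low degree
  have hbig : Big (fun b _ => UU K wd U b) := ⟨one_mem_UU U, fun hx hy => mul_mem_UU hx hy⟩
  have hGU : ∀ b e, cf b e G ∈ UU K wd U b := by
    have : InB (fun b _ => UU K wd U b) G :=
      InB.prod hbig s A fun i hi b e => (hM i hi).u b e (hA i hi b e)
    exact this
  revert e
  induction b using Nat.strong_induction_on with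
  | _ b ih =>
    intro e
    rcases Nat.eq_zero_or_pos b with hb | hb
    · subst hb
      refine (SumLe.single ?_).mono ?_
      · refine ⟨0, 0, 1, 1, cf 0 e G, 1, one_mem_VV V, hGU 0 e, RankLe.one, by ring, ?_⟩
        simpa using Nat.one_le_pow _ _ hV
      · exact Nat.one_le_iff_ne_zero.2 (by positivity)
    · have hbK : (b : K) ≠ 0 := by exact_mod_cast hb.ne'
      have h1 : cf b e G = (b : K)⁻¹ • ∑ i ∈ (antidiagonal b).erase (b, 0),
          ∑ j ∈ antidiagonal e, cf i.1 j.1 G * cf i.2 j.2 T := by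
        have h2 : cf b e (Dl G) = cf b e (G * T) := by rw [hDG]
        rw [cf_Dl, cf_mul] at h2
        have hmem : (b, 0) ∈ antidiagonal b := by simp
        rw [← add_sum_erase _ _ hmem] at h2
        have h3 : ∑ j ∈ antidiagonal e, cf (b, 0).1 j.1 G * cf (b, 0).2 j.2 T = 0 :=
          sum_eq_zero fun j _ => by rw [hT0, mul_zero]
        rw [h3, zero_add] at h2
        rw [← h2]
        have h4 : (b : Fn K wd) * cf b e G = (b : K) • cf b e G := by
          rw [Algebra.smul_def, map_natCast]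
        rw [h4, smul_smul, inv_mul_cancel₀ hbK, one_smul]
      rw [h1]
      refine SumLe.smulGood ?_ _
      refine SumLe.mono (?_ : ∑ i ∈ (antidiagonal b).erase (b, 0), ∑ j ∈ antidiagonal e,
        4 ^ i.1 * 3 ^ j.1 ≤ _) ?_
      · have := (geo2 b e).2
        omega
      · refine SumLe.sum _ _ _ fun i hi => SumLe.sum _ _ _ fun j hj => ?_
        rw [mem_erase, HasAntidiagonal.mem_antidiagonal] at hi
        have hj' := HasAntidiagonal.mem_antidiagonal.1 hj
        have hi2 : 1 ≤ i.2 := by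
          by_contra hlt
          apply hi.1
          ext <;> simp <;> omega
        have h5 := (ih i.1 (by omega) j.1).mulGood
          ((hTB i.2 j.2).good hnum (by omega))
        rwa [hi.2, hj'] at h5

/-- multiplication with a factor without constant term -/
theorem mul_gate {w D : ℕ} (hnum : NumOK (fun b => D * w ^ b) h HU HV) (hD : 1 ≤ D)
    (M : ℕ → ℕ → Submodule K (Fn K wd)) (hM : Fam U V w M) {A G : Ser (Fn K wd)}
    (hA : InB M A) (hA0 : cf 0 0 A = 0)
    (hG : ∀ b e, SumLe (Good K wd U V h HU HV b e) (4 ^ b * 3 ^ e) (cf b e G)) (b e : ℕ) :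
    SumLe (Good K wd U V h HU HV b e) (4 ^ b * 3 ^ e) (cf b e (G * A)) := by
  rw [cf_mul, ← sum_product']
  have hmem : ((b, 0), (e, 0)) ∈ antidiagonal b ×ˢ antidiagonal e := by simp
  rw [← add_sum_erase _ _ hmem]
  simp only
  rw [hA0, mul_zero, zero_add]
  refine SumLe.mono (?_ : ∑ x ∈ (antidiagonal b ×ˢ antidiagonal e).erase ((b, 0), (e, 0)),
    4 ^ x.1.1 * 3 ^ x.2.1 ≤ _) ?_
  · have h1 := (geo2 b e).1
    rw [← sum_product', ← add_sum_erase _ _ hmem] at h1
    simp only at h1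
    omega
  · refine SumLe.sum _ _ _ fun x hx => ?_
    rw [mem_erase, mem_product, HasAntidiagonal.mem_antidiagonal,
      HasAntidiagonal.mem_antidiagonal] at hx
    obtain ⟨hne, hx1, hx2⟩ := hx
    have hpos : 1 ≤ x.1.2 + x.2.2 := by
      by_contra hlt
      apply hne
      have e1 : x.1.2 = 0 := by omega
      have e2 : x.2.2 = 0 := by omega
      have e3 : x.1.1 = b := by omega
      have e4 : x.2.1 = e := by omega
      ext <;> simp [e1, e2, e3, e4]
    have hB : Blk U V (fun b => D * w ^ b) x.1.2 x.2.2 (cf x.1.2 x.2.2 A) :=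
      ⟨hM.v _ _ (hA _ _), hM.u _ _ (hA _ _), (hM.r _ _ _ (hA _ _)).mono
        (Nat.le_mul_of_pos_left _ hD)⟩
    have h5 := (hG x.1.1 x.2.1).mulGood (hB.good hnum hpos)
    rwa [hx1, hx2] at h5

/-- arbitrary products of at most `D` factors -/
theorem gate [CharZero K] {w : ℕ} (hV : 1 ≤ HV) {D : ℕ} (hD : 1 ≤ D)
    (hnum : NumOK (fun b => D * w ^ b) h HU HV) (M : Fin D → ℕ → ℕ → Submodule K (Fn K wd))
    (hM : ∀ i, Fam U V w (M i)) (A : Fin D → Ser (Fn K wd)) (hA : ∀ i, InB (M i) (A i))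
    (c : Fin D → K) (hc : ∀ i, cf 0 0 (A i) = algebraMap K _ (c i)) (b e : ℕ) :
    SumLe (Good K wd U V h HU HV b e) (4 ^ b * 3 ^ e) (cf b e (∏ i, A i)) := by
  classical
  have h1 : ∀ t : Finset (Fin D), t ⊆ univ.filter (fun i => c i = 0) → ∀ b e,
      SumLe (Good K wd U V h HU HV b e) (4 ^ b * 3 ^ e)
        (cf b e ((∏ i ∈ univ.filter (fun i => ¬ c i = 0), A i) * ∏ i ∈ t, A i)) := by
    intro t
    induction t using Finset.induction_on with
    | empty =>
      intro _ b e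
      rw [prod_empty, mul_one]
      refine unit_gate hV hnum _ ?_ M (fun i _ => hM i) A (fun i _ => hA i) c (fun i _ => hc i)
        (fun i hi => (mem_filter.1 hi).2) b e
      exact (card_filter_le _ _).trans (by simp)
    | insert a t ha ih =>
      intro ht b e
      have h2 : c a = 0 := (mem_filter.1 (ht (mem_insert_self _ _))).2
      rw [prod_insert ha, mul_comm (A a), ← mul_assoc]
      refine mul_gate hnum hD (M a) (hM a) (hA a) (by rw [hc a, h2, map_zero])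
        (ih fun i hi => ht (mem_insert_of_mem hi)) b e
  have h2 := h1 _ (Subset.refl _) b e
  have h3 : (∏ i ∈ univ.filter (fun i => ¬ c i = 0), A i) *
      ∏ i ∈ univ.filter (fun i => c i = 0), A i = ∏ i, A i := by
    rw [mul_comm]
    exact prod_filter_mul_prod_filter_not _ _ _
  rwa [h3] at h2

/-- the rank of a good term -/
theorem Good.rank {b e : ℕ} {f : Fn K wd} (hf : Good K wd U V h HU HV b e f)
    (hwd : ∀ k, 1 ≤ wd k) (hHU : 1 ≤ HU) (hHV : 1 ≤ HV) (hU : ∀ e ∈ U, wcov wd {e} ≤ HU)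
    (hV : ∀ e ∈ V, wcov wd {e} ≤ HV) :
    ∃ N : ℕ, N ^ 2 * h ^ b ≤ HU ^ b * HV ^ e ∧ RankLe (2 ^ V.card * 2 ^ U.card * N) f := by
  obtain ⟨x, y, ρ, A, B, C, hA, hB, hC, rfl, h1⟩ := hf
  refine ⟨HV ^ x * HU ^ y * ρ, h1, ?_⟩
  refine (((rank_VV hA).mul (rank_UU hB)).mul hC).mono ?_
  have h2 := Nat.mul_le_mul (Nat.mul_le_mul (Dm_le hwd hHV hV x) (Dm_le hwd hHU hU y)) (le_refl ρ)
  refine h2.trans (le_of_eq ?_)
  ring

end Good

end Pool.Agent.Helper87.D3
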